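import Pool.Agent.H39R2.Gon.Inv

/-!
# The translation bound for arbitrary monic polynomials
-/

set_option autoImplicit false

namespace Helper392PC

open Polynomial Finset H39Gon

variable {K : Type} [Field K]

theorem taylor_mon (t : K) {G : K[X]} (hG : G.Monic) : (taylor t G).Monic := by
  unfold Polynomial.Monic
  rw [leadingCoeff_taylor]
  exact hG

theorem card_noncoprime [Fintype K] [DecidableEq K] (G : K[X]) (hG : G.Monic) (t0 : K)
    (s : Finset K) (hs : ∀ t ∈ s, ¬ IsCoprime (taylor t G) (taylor t0 G)) :
    s.card ≤ G.natDegree ^ 2 := by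
  classical
  set L := AlgebraicClosure K
  set rt : Finset L := (G.map (algebraMap K L)).roots.toFinset with hrt
  have hrc : rt.card ≤ G.natDegree := by
    refine (Multiset.toFinset_card_le _).trans ?_
    refine (card_roots' _).trans ?_
    rw [natDegree_map]
  have hmap : (s.image (algebraMap K L)) ⊆
      (rt ×ˢ rt).image (fun p => p.1 - p.2 + algebraMap K L t0) := by
    intro y hy
    obtain ⟨t, ht, rfl⟩ := Finset.mem_image.1 hy
    have h1 := hs t ht
    rw [Polynomial.isCoprime_iff_aeval_ne_zero_of_isAlgClosed K L] at h1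
    push Not at h1
    obtain ⟨a, ha1, ha2⟩ := h1
    have h0 : G.map (algebraMap K L) ≠ 0 := (hG.map _).ne_zero
    have e : ∀ u : K, aeval a (taylor u G) = 0 → (a + algebraMap K L u) ∈ rt := by
      intro u hu
      rw [hrt, Multiset.mem_toFinset, mem_roots h0, IsRoot.def, eval_map_algebraMap]
      rw [taylor_apply, aeval_comp] at hu
      simpa using hu
    refine Finset.mem_image.2 ⟨(a + algebraMap K L t, a + algebraMap K L t0), ?_, ?_⟩
    · simp [e t ha1, e t0 ha2]
    · simp
  have hc := Finset.card_le_card hmap
  rw [Finset.card_image_of_injective _ (algebraMap K L).injective] at hc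
  refine hc.trans (Finset.card_image_le.trans ?_)
  rw [Finset.card_product, sq]
  exact Nat.mul_le_mul hrc hrc

/-- Translation bound. -/
theorem translation_boundG [Fintype K] [DecidableEq K] {d : ℕ} (S : Finset (Fin d))
    (G0 : K[X]) (hG0 : G0.Monic) {a : ℕ}
    (h : G0.natDegree + a = S.card + 1) (hN : 2 * G0.natDegree ≤ S.card + 1)
    [DecidableEq (AddChar (degreeLT K a) ℂ)] :
    ∑ χ ∈ univ.filter (fun χ : AddChar (degreeLT K (S.card + 1)) ℂ =>
        resC G0 h.le χ = 1),
      nrm (gf (K := K) S (S.card + 1) (Nat.lt_succ_self _)) χ ^ 2 ≤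
      1 + (G0.natDegree : ℝ) ^ 2 * (2 * d.factorial) / (Fintype.card K : ℝ) := by
  classical
  set al : AddChar (degreeLT K (S.card + 1)) ℂ → ℝ :=
    fun χ => nrm (gf (K := K) S (S.card + 1) (Nat.lt_succ_self _)) χ ^ 2 with hal
  have hq : (0 : ℝ) < Fintype.card K := by exact_mod_cast Fintype.card_pos
  -- the translated polynomials
  set G : K → K[X] := fun t => taylor t G0 with hG
  have hGm : ∀ t, (G t).Monic := fun t => taylor_mon t hG0
  have hGd : ∀ t, (G t).natDegree = G0.natDegree := by
    intro t; rw [hG]; simp only; rw [natDegree_taylor]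
  have hG0' : G0 = G 0 := by rw [hG]; simp
  have hGt : ∀ t, taylor t (G 0) = G t := by
    intro t
    rw [← hG0']
  have ha : ∀ t, (G t).natDegree + a = S.card + 1 := by intro t; rw [hGd]; exact h
  -- D t
  set D : K → ℝ := fun t => ∑ χ ∈ (univ.filter (fun χ : AddChar (degreeLT K (S.card + 1)) ℂ =>
        resC (G t) (ha t).le χ = 1)).erase 1, al χ with hD
  have hDt : ∀ t, D t = D 0 := by
    intro t
    rw [hD]
    simp only
    apply Finset.sum_bij' (fun χ _ => trc t χ) (fun χ _ => trc (-t) χ)
    · intro χ hχ
      simp only [mem_filter, mem_univ, true_and, mem_erase] at hχ ⊢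
      refine ⟨?_, ?_⟩
      · intro h1
        apply hχ.1
        rw [← trc_neg t χ, h1]
        ext P; simp
      · ext P
        rw [resC_apply, trc_apply]
        have h2 := DFunLike.congr_fun hχ.2 (tay t _ P)
        rw [resC_apply] at h2
        rw [AddChar.one_apply] at h2 ⊢
        rw [← h2]
        congr 1
        ext1
        rw [tay_coe, mulMap_coe, mulMap_coe, taylor_mul, hGt, tay_coe]
    · intro χ hχ
      simp only [mem_filter, mem_univ, true_and, mem_erase] at hχ ⊢
      refine ⟨?_, ?_⟩
      · intro h1
        apply hχ.1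
        rw [← trc_neg' t χ, h1]
        ext P; simp
      · ext P
        rw [resC_apply, trc_apply]
        have h2 := DFunLike.congr_fun hχ.2 (tay (-t) _ P)
        rw [resC_apply] at h2
        rw [AddChar.one_apply] at h2 ⊢
        rw [← h2]
        congr 1
        ext1
        rw [tay_coe, mulMap_coe, mulMap_coe, taylor_mul, ← hGt t, taylor_taylor, neg_add_cancel,
          taylor_zero, tay_coe]
    · intro χ _
      exact trc_neg t χ
    · intro χ _
      exact trc_neg' t χ
    · intro χ _
      rw [hal]; simp only
      rw [nrm_trc]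
  have hcount : ∀ χ : AddChar (degreeLT K (S.card + 1)) ℂ, χ ≠ 1 →
      (univ.filter (fun t : K => resC (G t) (ha t).le χ = 1)).card ≤ G0.natDegree ^ 2 := by
    intro χ hχ
    by_cases hne : (univ.filter (fun t : K => resC (G t) (ha t).le χ = 1)).Nonempty
    · obtain ⟨t0, ht0⟩ := hne
      simp only [mem_filter, mem_univ, true_and] at ht0
      apply card_noncoprime G0 hG0 t0
      intro t ht hcop
      simp only [mem_filter, mem_univ, true_and] at ht
      apply hχ
      apply resC_inj (hGm t) (hGm t0) hcop (ha t) (ha t0) (by rw [hGd, hGd]; omega) χ 1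
      · rw [ht, resC_one]
      · rw [ht0, resC_one]
    · rw [Finset.not_nonempty_iff_eq_empty] at hne
      rw [hne]; simp
  have hsum : ∑ t : K, D t ≤ (G0.natDegree : ℝ) ^ 2 * (2 * d.factorial) := by
    calc ∑ t : K, D t = ∑ t : K, ∑ χ ∈ univ.erase (1 : AddChar (degreeLT K (S.card + 1)) ℂ),
          (if resC (G t) (ha t).le χ = 1 then al χ else 0) := by
          apply Finset.sum_congr rfl; intro t _
          rw [hD]; simp only
          rw [← Finset.sum_filter]
          apply Finset.sum_congr _ (fun _ _ => rfl)
          ext χ; simp only [mem_erase, mem_filter, mem_univ, true_and]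
          tauto
      _ = ∑ χ ∈ univ.erase (1 : AddChar (degreeLT K (S.card + 1)) ℂ),
          ((univ.filter (fun t : K => resC (G t) (ha t).le χ = 1)).card : ℝ) * al χ := by
          rw [Finset.sum_comm]
          apply Finset.sum_congr rfl; intro χ _
          rw [← Finset.sum_filter, Finset.sum_const, nsmul_eq_mul]
      _ ≤ ∑ χ ∈ univ.erase (1 : AddChar (degreeLT K (S.card + 1)) ℂ),
          (G0.natDegree : ℝ) ^ 2 * al χ := by
          apply Finset.sum_le_sum
          intro χ hχ
          have := hcount χ (Finset.ne_of_mem_erase hχ)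
          have h0 : 0 ≤ al χ := sq_nonneg _
          have h1 : ((univ.filter (fun t : K => resC (G t) (ha t).le χ = 1)).card : ℝ) ≤
              (G0.natDegree : ℝ) ^ 2 := by exact_mod_cast this
          exact mul_le_mul_of_nonneg_right h1 h0
      _ ≤ ∑ χ, (G0.natDegree : ℝ) ^ 2 * al χ := by
          apply Finset.sum_le_sum_of_subset_of_nonneg (Finset.erase_subset _ _)
          intro χ _ _
          have h0 : 0 ≤ al χ := sq_nonneg _
          positivity
      _ ≤ _ := by
          rw [← Finset.mul_sum]
          have := parseval_gf (K := K) S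
          apply mul_le_mul_of_nonneg_left this (by positivity)
  simp_rw [hDt] at hsum
  rw [Finset.sum_const, Finset.card_univ, nsmul_eq_mul] at hsum
  have hfin : ∑ χ ∈ univ.filter (fun χ : AddChar (degreeLT K (S.card + 1)) ℂ =>
        resC G0 h.le χ = 1), al χ = D 0 + al 1 := by
    have e : univ.filter (fun χ : AddChar (degreeLT K (S.card + 1)) ℂ =>
        resC G0 h.le χ = 1) =
        univ.filter (fun χ : AddChar (degreeLT K (S.card + 1)) ℂ =>
        resC (G 0) (ha 0).le χ = 1) := by
      ext χ
      simp only [mem_filter, mem_univ, true_and]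
      have : resC G0 h.le χ = resC (G 0) (ha 0).le χ := by
        ext P
        rw [resC_apply, resC_apply]
        congr 1
        ext1
        simp [← hG0']
      rw [this]
    rw [e, hD]
    simp only
    rw [Finset.sum_erase_add]
    simp only [mem_filter, mem_univ, true_and]
    exact resC_one _ _
  change ∑ χ ∈ univ.filter (fun χ : AddChar (degreeLT K (S.card + 1)) ℂ =>
        resC G0 h.le χ = 1), al χ ≤ _
  rw [hfin]
  have hal1 : al 1 = 1 := by
    rw [hal]; simp only
    rw [nrm_one]; simp
  rw [hal1]
  have : D 0 ≤ (G0.natDegree : ℝ) ^ 2 * (2 * d.factorial) / (Fintype.card K : ℝ) := by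
    rw [le_div_iff₀ hq]; linarith
  linarith

end Helper392PC
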