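import Pool.Agent.H39R2.Gon.Count
import Pool.Agent.Helper392_PC.TransG

/-!
# The count theorem with fixed factors
-/

set_option autoImplicit false

namespace Helper392PC

open Polynomial Finset H39Gon

variable {K : Type} [Field K]

/-- real slots of group `X` -/
def RX {d : ℕ} (n : Fin 3 → ℕ) (X : Fin 3) : Finset (Fin d) := univ.filter (fun i => i.val < n X)

theorem RX_card {d : ℕ} (n : Fin 3 → ℕ) (X : Fin 3) (h : n X ≤ d) :
    (RX (d := d) n X).card = n X := by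
  unfold RX
  rw [Fin.card_filter_val_lt]
  exact min_eq_right h

/-- number of relations with fixed factors -/
noncomputable def WtG {d : ℕ} (M0 : Fin 3 → K[X]) (n : Fin 3 → ℕ) (z : Fin 3 × Fin d → K) : ℝ :=
  (Nat.card {l : Fin 3 → Kˣ //
    ∑ Y : Fin 3, C (l Y : K) * (M0 Y * ∏ i ∈ RX n Y, (X - C (z (Y, i)))) = 0} : ℝ)

/-- free slots -/
def SfG {d : ℕ} (n : Fin 3 → ℕ) (T : Finset (Fin 3 × Fin d)) (Y : Fin 3) : Finset (Fin d) :=
  (RX n Y).filter (fun i => (Y, i) ∉ T)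

/-- prescribed slots -/
def TfG {d : ℕ} (n : Fin 3 → ℕ) (T : Finset (Fin 3 × Fin d)) (Y : Fin 3) : Finset (Fin d) :=
  (RX n Y).filter (fun i => (Y, i) ∈ T)

/-- prescribed part -/
noncomputable def MfG {d : ℕ} (M0 : Fin 3 → K[X]) (n : Fin 3 → ℕ) (T : Finset (Fin 3 × Fin d))
    (z : Fin 3 × Fin d → K) (Y : Fin 3) : K[X] :=
  M0 Y * ∏ i ∈ TfG n T Y, (X - C (z (Y, i)))

theorem MfG_monic {d : ℕ} {M0 : Fin 3 → K[X]} (h : ∀ Y, (M0 Y).Monic) (n : Fin 3 → ℕ)
    (T : Finset (Fin 3 × Fin d)) (z : Fin 3 × Fin d → K) (Y : Fin 3) : (MfG M0 n T z Y).Monic :=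
  (h Y).mul (monic_prod_of_monic _ _ (fun _ _ => monic_X_sub_C _))

theorem MfG_natDegree {d : ℕ} {M0 : Fin 3 → K[X]} (h : ∀ Y, (M0 Y).Monic) (n : Fin 3 → ℕ)
    (T : Finset (Fin 3 × Fin d)) (z : Fin 3 × Fin d → K) (Y : Fin 3) :
    (MfG M0 n T z Y).natDegree = (M0 Y).natDegree + (TfG n T Y).card := by
  unfold MfG
  rw [(h Y).natDegree_mul (monic_prod_of_monic _ _ (fun _ _ => monic_X_sub_C _)),
    natDegree_prod_of_monic _ _ (fun i _ => monic_X_sub_C _)]
  simp only [natDegree_X_sub_C, sum_const, smul_eq_mul, mul_one]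

theorem SfG_card {d : ℕ} (n : Fin 3 → ℕ) (T : Finset (Fin 3 × Fin d)) (Y : Fin 3) (h : n Y ≤ d) :
    (TfG n T Y).card + (SfG n T Y).card = n Y := by
  unfold TfG SfG
  rw [Finset.card_filter_add_card_filter_not, RX_card n Y h]

theorem TfG_le {d : ℕ} (n : Fin 3 → ℕ) (T : Finset (Fin 3 × Fin d)) :
    (TfG n T 0).card + (TfG n T 1).card + (TfG n T 2).card ≤ T.card := by
  classical
  have h3 : (T.filter (fun a => a.1 = 0)).card + (T.filter (fun a => a.1 = 1)).card +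
      (T.filter (fun a => a.1 = 2)).card = T.card := by
    rw [Finset.card_filter, Finset.card_filter, Finset.card_filter, ← Finset.sum_add_distrib,
      ← Finset.sum_add_distrib]
    rw [Finset.card_eq_sum_ones]
    apply Finset.sum_congr rfl
    rintro ⟨x, i⟩ _
    fin_cases x <;> simp
  have h : ∀ Y, (TfG n T Y).card ≤ (T.filter (fun a => a.1 = Y)).card := by
    intro Y
    apply Finset.card_le_card_of_injOn (fun i => (Y, i))
    · intro i hi
      unfold TfG at hi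
      simp only [coe_filter, Set.mem_ofPred_eq] at hi ⊢
      simpa using hi.2
    · intro i _ j _ hij
      simpa using hij
  have h0 := h 0
  have h1 := h 1
  have h2 := h 2
  omega

theorem PG_split {d : ℕ} (M0 : Fin 3 → K[X]) (n : Fin 3 → ℕ) (T : Finset (Fin 3 × Fin d))
    (z z' : Fin 3 × Fin d → K) (Y : Fin 3) :
    M0 Y * ∏ i ∈ RX n Y, (X - C (T.piecewise z z' (Y, i))) =
      MfG M0 n T z Y * ∏ i ∈ SfG n T Y, (X - C (z' (Y, i))) := by
  classical
  rw [← Finset.prod_filter_mul_prod_filter_not (RX n Y) (fun i : Fin d => (Y, i) ∈ T)]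
  unfold MfG TfG SfG
  rw [mul_assoc]
  congr 2
  · apply Finset.prod_congr rfl
    intro i hi
    simp only [mem_filter] at hi
    rw [Finset.piecewise_eq_of_mem _ _ _ hi.2]
  · apply Finset.prod_congr rfl
    intro i hi
    simp only [mem_filter] at hi
    rw [Finset.piecewise_eq_of_notMem _ _ _ hi.2]

/-- number of coefficients of the free part -/
def nfG {d : ℕ} (n : Fin 3 → ℕ) (T : Finset (Fin 3 × Fin d)) (Y : Fin 3) : ℕ :=
  (SfG n T Y).card + 1

theorem nfG_eq {d : ℕ} (n : Fin 3 → ℕ) (T : Finset (Fin 3 × Fin d)) (Y : Fin 3) :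
    (SfG n T Y).card + 1 = nfG n T Y := rfl

theorem nfG_lt {d : ℕ} (n : Fin 3 → ℕ) (T : Finset (Fin 3 × Fin d)) (Y : Fin 3) :
    (SfG n T Y).card < nfG n T Y :=
  Nat.lt_succ_self _

theorem hTXG {d : ℕ} {M0 : Fin 3 → K[X]} (h : ∀ Y, (M0 Y).Monic) {n : Fin 3 → ℕ}
    (hdn : ∀ Y, (M0 Y).natDegree + n Y = d)
    (T : Finset (Fin 3 × Fin d)) (z : Fin 3 × Fin d → K) (Y : Fin 3) :
    (MfG M0 n T z Y).natDegree + nfG n T Y = d + 1 := by
  have h1 := hdn Y
  have h2 := SfG_card n T Y (by omega)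
  rw [MfG_natDegree h, ← nfG_eq]
  omega

attribute [irreducible] nfG

variable [Fintype K] [DecidableEq K]

theorem translation_boundG' {d : ℕ} (S : Finset (Fin d)) (n : ℕ) (hn : S.card + 1 = n)
    (h : S.card < n) (G : K[X]) (hG : G.Monic) {a : ℕ}
    (hM : G.natDegree + a = n) (hN : 2 * G.natDegree ≤ n)
    [DecidableEq (AddChar (degreeLT K a) ℂ)] :
    ∑ χ ∈ univ.filter (fun χ : AddChar (degreeLT K n) ℂ => resC G hM.le χ = 1),
      nrm (gf (K := K) S n h) χ ^ 2 ≤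
      1 + (G.natDegree : ℝ) ^ 2 * (2 * d.factorial) / (Fintype.card K : ℝ) := by
  subst hn
  exact translation_boundG S G hG hM hN

/-- abstract version of the error bound -/
theorem err_absG {d : ℕ} (S : Fin 3 → Finset (Fin d)) (n : Fin 3 → ℕ)
    (hn : ∀ Y, (S Y).card + 1 = n Y) (hlt : ∀ Y, (S Y).card < n Y)
    (M : Fin 3 → K[X]) (hmon : ∀ Y, (M Y).Monic) (hcop : ∀ X Y : Fin 3, X ≠ Y → IsCoprime (M X) (M Y))
    (L : Fin 3 → K[X]) (hLmon : ∀ Y, (L Y).Monic) (MM : K[X])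
    (hMN : ∀ Y, M Y * L Y = MM) (a e : ℕ)
    (hX : ∀ Y, (M Y).natDegree + n Y = d + 1)
    (hra : ∀ Y, (L Y).natDegree + a = n Y)
    (ht0 : (M 1).natDegree + e = n 0) (ht1 : (M 0).natDegree + e = n 1)
    (hle : (M 0).natDegree + (M 1).natDegree + (M 2).natDegree ≤ d + 1)
    (hNN : ∀ Y, 2 * (L Y).natDegree ≤ n Y) (N : ℕ) (hN : ∀ Y, (L Y).natDegree ≤ N) :
    ∑ χ ∈ univ.erase (1 : AddChar (degreeLT K (d + 1)) ℂ),
      nrm (gf (S 0) (n 0) (hlt 0)) (resC (a := n 0) (b := d + 1) (M 0) (le_of_eq (hX 0)) χ) *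
      nrm (gf (S 1) (n 1) (hlt 1)) (resC (a := n 1) (b := d + 1) (M 1) (le_of_eq (hX 1)) χ) *
      nrm (gf (S 2) (n 2) (hlt 2)) (resC (a := n 2) (b := d + 1) (M 2) (le_of_eq (hX 2)) χ) ≤
      (2 * d.factorial) * √((2 * d.factorial) / ((Fintype.card K : ℝ) - 1)) +
        ((1 + (N : ℝ) ^ 2 * (2 * d.factorial) / (Fintype.card K : ℝ)) ^ 2 - 1) := by
  classical
  have hq : (0 : ℝ) < Fintype.card K := by exact_mod_cast Fintype.card_pos
  have hrr : ∀ (Y Y' : Fin 3) (χ : AddChar (degreeLT K (d + 1)) ℂ),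
      resC (a := a) (b := n Y) (L Y) (le_of_eq (hra Y))
        (resC (a := n Y) (b := d + 1) (M Y) (le_of_eq (hX Y)) χ) =
      resC (a := a) (b := n Y') (L Y') (le_of_eq (hra Y'))
        (resC (a := n Y') (b := d + 1) (M Y') (le_of_eq (hX Y')) χ) := by
    intro Y Y' χ
    ext P
    rw [resC_apply, resC_apply, resC_apply, resC_apply]
    congr 1
    ext1
    rw [mulMap_coe, mulMap_coe, mulMap_coe, mulMap_coe, ← mul_assoc, ← mul_assoc, hMN, hMN]
  apply abstract_bound (Θ := AddChar (degreeLT K e) ℂ) (H := AddChar (degreeLT K a) ℂ)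
    (resC (a := n 0) (b := d + 1) (M 0) (le_of_eq (hX 0)))
    (resC (a := n 1) (b := d + 1) (M 1) (le_of_eq (hX 1)))
    (resC (a := n 2) (b := d + 1) (M 2) (le_of_eq (hX 2)))
    (resC (a := e) (b := n 0) (M 1) (le_of_eq ht0)) (resC (a := e) (b := n 1) (M 0) (le_of_eq ht1))
    ?_ ?_ ?_
    (resC (a := a) (b := n 0) (L 0) (le_of_eq (hra 0)))
    (resC (a := a) (b := n 1) (L 1) (le_of_eq (hra 1)))
    (resC (a := a) (b := n 2) (L 2) (le_of_eq (hra 2))) ?_ ?_
    1 _ _ _ (nrm_nonneg _) (nrm_nonneg _) (nrm_nonneg _) ?_ _ _ _ (by positivity) (by positivity)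
    (parseval_gf' _ _ (hn 0) _) (parseval_gf' _ _ (hn 1) _) ?_ ?_ ?_ ?_
  · intro χ
    ext P
    rw [resC_apply, resC_apply, resC_apply, resC_apply]
    congr 1
    ext1
    rw [mulMap_coe, mulMap_coe, mulMap_coe, mulMap_coe]
    ring
  · intro χ χ' h h'
    exact resC_inj (hmon 0) (hmon 1) (hcop 0 1 (by decide)) (hX 0) (hX 1)
      (by omega) χ χ' h h'
  · intro χ χ' h h'
    have h01d : (M 0 * M 1).natDegree = (M 0).natDegree + (M 1).natDegree :=
      (hmon 0).natDegree_mul (hmon 1)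
    have hX0 := hX 0
    have hd01 : (M 0 * M 1).natDegree + e = d + 1 := by rw [h01d]; omega
    refine resC_inj ((hmon 0).mul (hmon 1)) (hmon 2)
      (IsCoprime.mul_left (hcop 0 2 (by decide)) (hcop 1 2 (by decide))) hd01 (hX 2)
      (by rw [h01d]; omega) χ χ' ?_ h'
    rw [← resC_comp (le_of_eq ht0) (le_of_eq (hX 0)) (le_of_eq hd01),
      ← resC_comp (le_of_eq ht0) (le_of_eq (hX 0)) (le_of_eq hd01)]
    exact h
  · intro χ; exact hrr 1 0 χ
  · intro χ; exact hrr 2 0 χ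
  · rw [resC_one, resC_one, resC_one, nrm_one, nrm_one, nrm_one]; norm_num
  · intro Q hQ
    apply scaling_bound' _ _ (hn 2)
    intro h1
    apply hQ
    rw [h1, resC_one, resC_one]
  · rw [resC_one, resC_one]
    refine (translation_boundG' (S 0) _ (hn 0) (hlt 0) _ (hLmon 0) (hra 0) (hNN 0)).trans ?_
    have : ((L 0).natDegree : ℝ) ≤ N := by exact_mod_cast hN 0
    gcongr
  · rw [resC_one, resC_one]
    refine (translation_boundG' (S 1) _ (hn 1) (hlt 1) _ (hLmon 1) (hra 1) (hNN 1)).trans ?_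
    have : ((L 1).natDegree : ℝ) ≤ N := by exact_mod_cast hN 1
    gcongr
  · rw [resC_one, resC_one]
    refine (translation_boundG' (S 2) _ (hn 2) (hlt 2) _ (hLmon 2) (hra 2) (hNN 2)).trans ?_
    have : ((L 2).natDegree : ℝ) ≤ N := by exact_mod_cast hN 2
    gcongr

section main

variable {d : ℕ} {M0 : Fin 3 → K[X]} (hM0 : ∀ Y, (M0 Y).Monic) {n : Fin 3 → ℕ}
  (hdn : ∀ Y, (M0 Y).natDegree + n Y = d) (T : Finset (Fin 3 × Fin d)) (z : Fin 3 × Fin d → K)

/-- the vectors `M_X g_X(ω)` -/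
noncomputable def vecG (Y : Fin 3) (ω : Kˣ × (Fin d → K)) : degreeLT K (d + 1) :=
  mulMap (a := nfG n T Y) (b := d + 1) (MfG M0 n T z Y) (le_of_eq (hTXG hM0 hdn T z Y))
    (gf (SfG n T Y) (nfG n T Y) (nfG_lt n T Y) ω)

/-- restriction to multiples of `M_X` -/
noncomputable def resXG (Y : Fin 3)
    (χ : AddChar (degreeLT K (d + 1)) ℂ) : AddChar (degreeLT K (nfG n T Y)) ℂ :=
  resC (a := nfG n T Y) (b := d + 1) (MfG M0 n T z Y) (le_of_eq (hTXG hM0 hdn T z Y)) χ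

theorem WtG_eq (z' : Fin 3 × Fin d → K) :
    WtG M0 n (T.piecewise z z') = ∑ l : Fin 3 → Kˣ,
      (if ∑ Y : Fin 3, vecG hM0 hdn T z Y (l Y, fun i => z' (Y, i)) = 0 then (1 : ℝ) else 0) := by
  classical
  unfold WtG
  rw [Nat.card_eq_fintype_card, Fintype.card_subtype, Finset.card_filter]
  push_cast
  apply Finset.sum_congr rfl
  intro l _
  have : (∑ Y : Fin 3, C (l Y : K) * (M0 Y * ∏ i ∈ RX n Y, (X - C (T.piecewise z z' (Y, i)))) = 0) ↔
      (∑ Y : Fin 3, vecG hM0 hdn T z Y (l Y, fun i => z' (Y, i)) = 0) := by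
    rw [← Submodule.coe_eq_zero, Submodule.coe_sum]
    have e : ∀ Y : Fin 3, ((vecG hM0 hdn T z Y (l Y, fun i => z' (Y, i)) :
        degreeLT K (d + 1)) : K[X]) =
        C (l Y : K) * (M0 Y * ∏ i ∈ RX n Y, (X - C (T.piecewise z z' (Y, i)))) := by
      intro Y
      rw [PG_split]
      unfold vecG
      rw [mulMap_coe, gf_coe]
      ring
    simp_rw [e]
  simp only [this]

theorem main_identityG :
    (((Fintype.card K : ℝ) ^ (d + 1) *
      ∑ z' : Fin 3 × Fin d → K, WtG M0 n (T.piecewise z z') : ℝ) : ℂ) =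
      ∑ χ : AddChar (degreeLT K (d + 1)) ℂ, ∏ Y : Fin 3, ∑ ω, χ (vecG hM0 hdn T z Y ω) := by
  classical
  have h1 : ∀ z' : Fin 3 × Fin d → K,
      (((Fintype.card K : ℝ) ^ (d + 1) * WtG M0 n (T.piecewise z z') : ℝ) : ℂ)
      = ∑ l : Fin 3 → Kˣ, ∑ χ : AddChar (degreeLT K (d + 1)) ℂ,
        ∏ Y : Fin 3, χ (vecG hM0 hdn T z Y (l Y, fun i => z' (Y, i))) := by
    intro z'
    rw [WtG_eq hM0 hdn]
    push_cast
    rw [Finset.mul_sum]
    apply Finset.sum_congr rfl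
    intro l _
    have := AddChar.sum_apply_eq_ite (∑ Y : Fin 3, vecG hM0 hdn T z Y (l Y, fun i => z' (Y, i)))
    have h2 : ∀ χ : AddChar (degreeLT K (d + 1)) ℂ,
        χ (∑ Y : Fin 3, vecG hM0 hdn T z Y (l Y, fun i => z' (Y, i))) =
        ∏ Y : Fin 3, χ (vecG hM0 hdn T z Y (l Y, fun i => z' (Y, i))) := by
      intro χ
      rw [Fin.sum_univ_three, Fin.prod_univ_three, AddChar.map_add_eq_mul, AddChar.map_add_eq_mul]
    simp_rw [h2] at this
    rw [this, card_degreeLT]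
    split_ifs <;> simp
  rw [Finset.mul_sum, Complex.ofReal_sum]
  simp_rw [h1]
  simp_rw [Finset.sum_comm (s := (univ : Finset (Fin 3 → Kˣ)))]
  rw [Finset.sum_comm]
  apply Finset.sum_congr rfl
  intro χ _
  rw [Finset.prod_univ_sum]
  rw [Fintype.piFinset_univ, ← Finset.sum_product', Finset.univ_product_univ]
  exact Fintype.sum_equiv (reidx d K Kˣ) _ _ (fun p => rfl)

theorem err_boundG {E : ℕ} (hE : 2 * E ≤ d)
    (hTE : (M0 0).natDegree + (M0 1).natDegree + (M0 2).natDegree + T.card ≤ E)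
    (hcop : ∀ Y Y', Y ≠ Y' → IsCoprime (MfG M0 n T z Y) (MfG M0 n T z Y')) :
    ∑ χ ∈ univ.erase (1 : AddChar (degreeLT K (d + 1)) ℂ),
      nrm (gf (SfG n T 0) (nfG n T 0) (nfG_lt n T 0)) (resXG hM0 hdn T z 0 χ) *
      nrm (gf (SfG n T 1) (nfG n T 1) (nfG_lt n T 1)) (resXG hM0 hdn T z 1 χ) *
      nrm (gf (SfG n T 2) (nfG n T 2) (nfG_lt n T 2)) (resXG hM0 hdn T z 2 χ) ≤
      (2 * d.factorial) * √((2 * d.factorial) / ((Fintype.card K : ℝ) - 1)) +
        ((1 + (E : ℝ) ^ 2 * (2 * d.factorial) / (Fintype.card K : ℝ)) ^ 2 - 1) := by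
  classical
  have hmon := MfG_monic hM0 n T z
  have hdeg := MfG_natDegree hM0 n T z
  have hT3 := TfG_le n T
  have hX := hTXG hM0 hdn T z
  have hsum : (MfG M0 n T z 0).natDegree + (MfG M0 n T z 1).natDegree +
      (MfG M0 n T z 2).natDegree ≤ E := by
    rw [hdeg, hdeg, hdeg]; omega
  have hLd : ∀ Y, (∏ Y' ∈ univ.erase Y, MfG M0 n T z Y').natDegree + (MfG M0 n T z Y).natDegree =
      (MfG M0 n T z 0).natDegree + (MfG M0 n T z 1).natDegree + (MfG M0 n T z 2).natDegree := by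
    intro Y
    rw [natDegree_prod_of_monic _ _ (fun i _ => hmon i), Finset.sum_erase_add _ _ (mem_univ Y),
      Fin.sum_univ_three]
  have hX0 := hX 0
  have hX1 := hX 1
  have hX2 := hX 2
  refine err_absG (SfG n T) (nfG n T) (nfG_eq n T) (nfG_lt n T) (MfG M0 n T z) hmon hcop
    (fun Y => ∏ Y' ∈ univ.erase Y, MfG M0 n T z Y')
    (fun Y => monic_prod_of_monic _ _ (fun i _ => hmon i)) (∏ Y', MfG M0 n T z Y') ?_
    (d + 1 - ((MfG M0 n T z 0).natDegree + (MfG M0 n T z 1).natDegree +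
      (MfG M0 n T z 2).natDegree))
    (d + 1 - (MfG M0 n T z 0).natDegree - (MfG M0 n T z 1).natDegree)
    hX ?_ ?_ ?_ ?_ ?_ E ?_
  · intro Y
    exact Finset.mul_prod_erase univ _ (mem_univ Y)
  · intro Y
    have h1 := hLd Y
    have h2 := hX Y
    omega
  · omega
  · omega
  · omega
  · intro Y
    have h1 := hLd Y
    have h2 := hX Y
    omega
  · intro Y
    have h1 := hLd Y
    omega

include hM0 hdn in
theorem count_explicitG {E : ℕ} (hE : 2 * E ≤ d)
    (hTE : (M0 0).natDegree + (M0 1).natDegree + (M0 2).natDegree + T.card ≤ E)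
    (hcop : ∀ Y Y', Y ≠ Y' → IsCoprime (MfG M0 n T z Y) (MfG M0 n T z Y')) :
    |(∑ z' : Fin 3 × Fin d → K, WtG M0 n (T.piecewise z z')) / (Fintype.card K : ℝ) ^ (3 * d)
      - wbar (Fintype.card K) d| ≤
      ((2 * d.factorial) * √((2 * d.factorial) / ((Fintype.card K : ℝ) - 1)) +
        ((1 + (E : ℝ) ^ 2 * (2 * d.factorial) / (Fintype.card K : ℝ)) ^ 2 - 1)) *
      wbar (Fintype.card K) d := by
  classical
  have hq2 : 2 ≤ Fintype.card K := Fintype.one_lt_card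
  set q : ℝ := (Fintype.card K : ℝ) with hqd
  have hq : (0 : ℝ) < q := by rw [hqd]; exact_mod_cast Fintype.card_pos
  have hq1 : (1 : ℝ) ≤ q - 1 := by
    have : (2 : ℝ) ≤ q := by rw [hqd]; exact_mod_cast hq2
    linarith
  set EE := (2 * d.factorial) * √((2 * d.factorial) / (q - 1)) +
        ((1 + (E : ℝ) ^ 2 * (2 * d.factorial) / q) ^ 2 - 1) with hEE
  have hcard : (Fintype.card (Kˣ × (Fin d → K)) : ℝ) = (q - 1) * q ^ d := by
    rw [Fintype.card_prod, Fintype.card_units K]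
    push_cast [Nat.cast_sub (by omega : 1 ≤ Fintype.card K)]
    simp [hqd]
  set S : ℝ := ∑ z' : Fin 3 × Fin d → K, WtG M0 n (T.piecewise z z') with hSdef
  have hmain := main_identityG hM0 hdn T z
  rw [← hSdef, ← hqd] at hmain
  have hterm : ∀ (χ : AddChar (degreeLT K (d + 1)) ℂ) (Y : Fin 3),
      ‖∑ ω, χ (vecG hM0 hdn T z Y ω)‖ = ((q - 1) * q ^ d) *
        nrm (gf (SfG n T Y) (nfG n T Y) (nfG_lt n T Y))
        (resXG hM0 hdn T z Y χ) := by
    intro χ Y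
    unfold nrm
    rw [hcard, mul_div_cancel₀]
    · rfl
    · have : 0 < (q - 1) * q ^ d := by
        apply mul_pos (by linarith) (by positivity)
      exact this.ne'
  have hone : ∏ Y : Fin 3, ∑ ω, (1 : AddChar (degreeLT K (d + 1)) ℂ) (vecG hM0 hdn T z Y ω) =
      ((((q - 1) * q ^ d) ^ 3 : ℝ) : ℂ) := by
    simp only [AddChar.one_apply, sum_const, card_univ, nsmul_eq_mul, mul_one, prod_const,
      Fintype.card_fin]
    rw [← hcard]
    push_cast
    rfl
  have hdiff : ‖(((q ^ (d + 1) * S - ((q - 1) * q ^ d) ^ 3 : ℝ)) : ℂ)‖ ≤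
      ((q - 1) * q ^ d) ^ 3 * EE := by
    rw [Complex.ofReal_sub, hmain, ← hone,
      ← Finset.sum_erase_add univ _ (mem_univ (1 : AddChar (degreeLT K (d + 1)) ℂ)),
      add_sub_cancel_right]
    refine (norm_sum_le _ _).trans ?_
    have herr := err_boundG hM0 hdn T z hE hTE hcop
    rw [← hqd, ← hEE] at herr
    have hpos : 0 ≤ ((q - 1) * q ^ d) ^ 3 := by
      have : 0 < (q - 1) * q ^ d := mul_pos (by linarith) (by positivity)
      positivity
    refine le_trans (le_of_eq ?_) (mul_le_mul_of_nonneg_left herr hpos)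
    rw [Finset.mul_sum]
    apply Finset.sum_congr rfl
    intro χ _
    rw [norm_prod, Fin.prod_univ_three, hterm, hterm, hterm]
    ring
  rw [Complex.norm_real, Real.norm_eq_abs] at hdiff
  have hw : wbar (Fintype.card K) d = ((q - 1) * q ^ d) ^ 3 / (q ^ (d + 1) * q ^ (3 * d)) := by
    unfold wbar
    rw [← hqd, div_eq_div_iff (by positivity) (by positivity)]
    ring
  have e1 : S / q ^ (3 * d) - wbar (Fintype.card K) d =
      (q ^ (d + 1) * S - ((q - 1) * q ^ d) ^ 3) / (q ^ (d + 1) * q ^ (3 * d)) := by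
    rw [hw]
    field_simp
  rw [e1, abs_div, abs_of_pos (by positivity : 0 < q ^ (d + 1) * q ^ (3 * d)), hw]
  rw [div_le_iff₀ (by positivity)]
  refine hdiff.trans (le_of_eq ?_)
  field_simp

end main

omit [Fintype K] [DecidableEq K] in
theorem MfG_coprime {d : ℕ} {M0 : Fin 3 → K[X]} (n : Fin 3 → ℕ) (T : Finset (Fin 3 × Fin d))
    (z : Fin 3 × Fin d → K) (hcop : ∀ Y Y', Y ≠ Y' → IsCoprime (M0 Y) (M0 Y'))
    (hroot : ∀ Y (a : K), (M0 Y).eval a ≠ 0)
    (hz : ∀ a ∈ T, ∀ b ∈ T, a.1 ≠ b.1 → z a ≠ z b) (Y Y' : Fin 3) (hY : Y ≠ Y') :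
    IsCoprime (MfG M0 n T z Y) (MfG M0 n T z Y') := by
  have hr : ∀ Y (a : K), IsCoprime (X - C a) (M0 Y) := by
    intro Y a
    rw [(irreducible_X_sub_C a).coprime_iff_not_dvd, dvd_iff_isRoot]
    exact hroot Y a
  unfold MfG
  apply IsCoprime.mul_left
  · apply IsCoprime.mul_right (hcop Y Y' hY)
    apply IsCoprime.prod_right
    intro j _
    exact (hr Y _).symm
  · apply IsCoprime.mul_right
    · apply IsCoprime.prod_left
      intro j _
      exact hr Y' _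
    · apply IsCoprime.prod_left; intro i hi
      apply IsCoprime.prod_right; intro j hj
      apply isCoprime_X_sub_C_of_isUnit_sub
      rw [isUnit_iff_ne_zero]
      unfold TfG at hi hj
      simp only [mem_filter] at hi hj
      exact sub_ne_zero.2 (hz _ hi.2 _ hj.2 hY)

open Filter Topology in
/-- the count theorem with fixed factors -/
theorem countThmG (N e d : ℕ) (h : 2 * (3 * e + N) ≤ d) (ε : ℝ) (hε : 0 < ε) :
    ∃ q0 : ℕ, ∀ (K : Type) [Field K] [Fintype K] [DecidableEq K],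
    q0 ≤ Fintype.card K → ∀ (M0 : Fin 3 → K[X]) (n : Fin 3 → ℕ), (∀ Y, (M0 Y).Monic) →
    (∀ Y, (M0 Y).natDegree + n Y = d) → (∀ Y, (M0 Y).natDegree ≤ e) →
    (∀ Y Y', Y ≠ Y' → IsCoprime (M0 Y) (M0 Y')) → (∀ Y (a : K), (M0 Y).eval a ≠ 0) →
    ∀ T : Finset (Fin 3 × Fin d), T.card ≤ N →
    ∀ z : Fin 3 × Fin d → K, (∀ a ∈ T, ∀ b ∈ T, a.1 ≠ b.1 → z a ≠ z b) →
    |(∑ z' : Fin 3 × Fin d → K, WtG M0 n (T.piecewise z z')) / (Fintype.card K : ℝ) ^ (3 * d)
      - wbar (Fintype.card K) d| ≤ ε * wbar (Fintype.card K) d := by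
  set E : ℕ := 3 * e + N with hEdef
  have hlim : Tendsto (fun n : ℕ => (2 * (d.factorial : ℝ)) * √((2 * d.factorial) / ((n : ℝ) - 1)) +
        ((1 + (E : ℝ) ^ 2 * (2 * d.factorial) / (n : ℝ)) ^ 2 - 1)) atTop (𝓝 0) := by
    have hn : Tendsto (fun n : ℕ => (n : ℝ)) atTop atTop := tendsto_natCast_atTop_atTop
    have hn1 : Tendsto (fun n : ℕ => (n : ℝ) - 1) atTop atTop :=
      tendsto_atTop_add_const_right _ _ hn
    have l1 : Tendsto (fun n : ℕ => (2 * (d.factorial : ℝ)) / ((n : ℝ) - 1)) atTop (𝓝 0) :=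
      hn1.const_div_atTop _
    have l2 : Tendsto (fun n : ℕ => (E : ℝ) ^ 2 * (2 * d.factorial) / (n : ℝ)) atTop (𝓝 0) :=
      hn.const_div_atTop _
    have l3 : Tendsto (fun n : ℕ => √((2 * (d.factorial : ℝ)) / ((n : ℝ) - 1))) atTop (𝓝 0) := by
      have := l1.sqrt
      rwa [Real.sqrt_zero] at this
    have l4 := (l3.const_mul (2 * (d.factorial : ℝ))).add (((l2.const_add 1).pow 2).sub_const 1)
    simpa using l4
  have hev : ∀ᶠ n : ℕ in atTop, (2 * (d.factorial : ℝ)) * √((2 * d.factorial) / ((n : ℝ) - 1)) +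
        ((1 + (E : ℝ) ^ 2 * (2 * d.factorial) / (n : ℝ)) ^ 2 - 1) < ε :=
    hlim.eventually (gt_mem_nhds hε)
  obtain ⟨q0, hq0⟩ := Filter.eventually_atTop.1 hev
  refine ⟨q0, ?_⟩
  intro K _ _ _ hK M0 n hM0 hdn he hcop hroot T hT z hz
  have he0 := he 0
  have he1 := he 1
  have he2 := he 2
  refine (count_explicitG hM0 hdn T z (E := E) (by omega) (by omega)
    (MfG_coprime n T z hcop hroot hz)).trans ?_
  have hw : 0 ≤ wbar (Fintype.card K) d := by
    unfold wbar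
    have hq2 : 2 ≤ Fintype.card K := Fintype.one_lt_card
    have : (2 : ℝ) ≤ Fintype.card K := by exact_mod_cast hq2
    have h1 : (0 : ℝ) ≤ (Fintype.card K : ℝ) - 1 := by linarith
    positivity
  exact mul_le_mul_of_nonneg_right (hq0 _ hK).le hw

end Helper392PC
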