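import Pool.Agent.Helper392_PC.Sd
import Pool.Agent.H39R2.GonP.Bridge

/-!
# `SpanDual` for `k(x)`, `k` an infinite union of finite fields: the transfer to all degrees
-/

set_option autoImplicit false

namespace Helper392PC

open Polynomial H39Gon H39Gon.TaskB

variable {k : Type} [Field k]

theorem eval2_xx (c : k) (F : k[X]) :
    eval₂ (RatFunc.C (K := k)) (xx c) (taylor c F) = algebraMap k[X] (RatFunc k) F := by
  rw [taylor_apply, eval₂_comp]
  have h1 : eval₂ (RatFunc.C (K := k)) (xx c) (X + C c) = RatFunc.X := by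
    simp [xx]
  rw [h1]
  have h2 : (eval₂RingHom (RatFunc.C (K := k)) RatFunc.X) = algebraMap k[X] (RatFunc k) := by
    apply Polynomial.ringHom_ext
    · intro a; simp
    · simp
  exact DFunLike.congr_fun h2 F

theorem eval2_xx' (c : k) (F : k[X]) :
    eval₂ (RatFunc.C (K := k)) (xx c) F = algebraMap k[X] (RatFunc k) (taylor (-c) F) := by
  rw [← eval2_xx c, taylor_taylor]
  simp

theorem rev_id (c : k) (F : k[X]) :
    eval₂ (RatFunc.C (K := k)) (xx c)⁻¹ (reverse (taylor c F)) * (xx c) ^ F.natDegree =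
      algebraMap k[X] (RatFunc k) F := by
  have hx : xx c ≠ 0 := xx_ne_zero c
  let _ : Invertible (xx c) := invertibleOfNonzero hx
  have h := eval₂_reverse_mul_pow (RatFunc.C (K := k)) (xx c) (taylor c F)
  rw [natDegree_taylor, eval2_xx] at h
  rw [← h]
  rfl

theorem sig_injG (c : k) :
    Function.Injective (eval₂RingHom (RatFunc.C (K := k)) ((xx c)⁻¹)) := by
  rw [injective_iff_map_eq_zero]
  intro P hP
  by_contra hP0
  have hx : xx c ≠ 0 := xx_ne_zero c
  have hx' : (xx c)⁻¹ ≠ 0 := inv_ne_zero hx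
  let _ : Invertible (xx c)⁻¹ := invertibleOfNonzero hx'
  have h := eval₂_reverse_mul_pow (RatFunc.C (K := k)) (xx c)⁻¹ P
  have hP' : eval₂ (RatFunc.C (K := k)) (xx c)⁻¹ P = 0 := hP
  rw [hP'] at h
  have h2 := (mul_eq_zero.1 h).resolve_right (pow_ne_zero _ hx')
  have h3 : ⅟((xx c)⁻¹) = xx c := by
    rw [invOf_eq_inv, inv_inv]
  rw [h3, eval2_xx'] at h2
  rw [map_eq_zero_iff _ (RatFunc.algebraMap_injective k)] at h2
  have h4 : reverse P = 0 := by
    have := congrArg (taylor c) h2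
    rw [taylor_taylor] at this
    simpa using this
  exact hP0 (reverse_eq_zero.1 h4)

/-- the automorphism `x ↦ 1/(x-c)` (only used as a hom) -/
noncomputable def sigG (c : k) : RatFunc k →+* RatFunc k :=
  IsFractionRing.lift (A := k[X]) (K := RatFunc k) (sig_injG c)

theorem sigG_alg (c : k) (F : k[X]) :
    sigG c (algebraMap k[X] (RatFunc k) F) = eval₂ (RatFunc.C (K := k)) (xx c)⁻¹ F := by
  unfold sigG
  rw [IsFractionRing.lift_algebraMap]
  rfl

theorem transferG (c : k) (F : k[X]) (hF : F.eval c ≠ 0) : ∃ F' : k[X], F' ≠ 0 ∧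
    F'.natDegree = F.natDegree ∧
    pc F = clMap (sigG c) (pc F' - pc (X ^ F.natDegree)) := by
  have hF0 : F ≠ 0 := by
    rintro rfl
    simp at hF
  have hT0 : (taylor c F).coeff 0 ≠ 0 := by
    rw [taylor_coeff_zero]
    exact hF
  have hTne : taylor c F ≠ 0 := by
    intro h
    rw [h] at hT0
    simp at hT0
  have hne : reverse (taylor c F) ≠ 0 := by
    intro h
    exact hTne (reverse_eq_zero.1 h)
  refine ⟨reverse (taylor c F), hne, ?_, ?_⟩
  · rw [reverse_natDegree, natDegree_taylor, natTrailingDegree_eq_zero_of_constantCoeff_ne_zero]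
    · simp
    · simpa using hT0
  · have hX0 : (X : k[X]) ^ F.natDegree ≠ 0 := pow_ne_zero _ X_ne_zero
    have h1 : pc (reverse (taylor c F)) - pc (X ^ F.natDegree) =
        cl (algebraMap k[X] (RatFunc k) (reverse (taylor c F)) /
          algebraMap k[X] (RatFunc k) (X ^ F.natDegree)) := by
      unfold pc
      rw [cl_div (alg0 hne) (alg0 hX0)]
    rw [h1, clMap_cl, map_div₀, sigG_alg, sigG_alg]
    unfold pc
    congr 1
    rw [eval₂_pow, eval₂_X, ← rev_id c F, inv_pow, div_inv_eq_mul]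

theorem spanDual_infinite (k : Type) [Field k] [Infinite k] (p : ℕ) [Fact p.Prime]
    [Algebra (ZMod p) k] [Algebra.IsAlgebraic (ZMod p) k] (m : ℕ) : SpanDual (RatFunc k) m := by
  classical
  have hfin := finSub k p
  intro Q hQ s v
  obtain ⟨f1, hf1, rfl⟩ := exists_cl s
  obtain ⟨f2, hf2, rfl⟩ := exists_cl v
  have hpc : ∀ f : RatFunc k, f ≠ 0 → cl f = pc f.num - pc f.denom := by
    intro f hf
    unfold pc
    rw [← cl_div (alg0 (RatFunc.num_ne_zero hf)) (alg0 f.denom_ne_zero), RatFunc.num_div_denom]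
  obtain ⟨c, hc⟩ := Infinite.exists_notMem_finset
    (f1.num.roots.toFinset ∪ f1.denom.roots.toFinset ∪
      (f2.num.roots.toFinset ∪ f2.denom.roots.toFinset))
  simp only [Finset.mem_union, not_or, Multiset.mem_toFinset] at hc
  have hev : ∀ F : k[X], F ≠ 0 → c ∉ F.roots → F.eval c ≠ 0 := by
    intro F hF h1 h2
    exact h1 ((mem_roots hF).2 h2)
  obtain ⟨A1, hA1, hA1d, hA1e⟩ := transferG c f1.num (hev _ (RatFunc.num_ne_zero hf1) hc.1.1)
  obtain ⟨A2, hA2, hA2d, hA2e⟩ := transferG c f1.denom (hev _ f1.denom_ne_zero hc.1.2)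
  obtain ⟨A3, hA3, hA3d, hA3e⟩ := transferG c f2.num (hev _ (RatFunc.num_ne_zero hf2) hc.2.1)
  obtain ⟨A4, hA4, hA4d, hA4e⟩ := transferG c f2.denom (hev _ f2.denom_ne_zero hc.2.2)
  have key : ∀ (F G A B : k[X]), A ≠ 0 → B ≠ 0 → A.natDegree = F.natDegree →
      B.natDegree = G.natDegree → pc F = clMap (sigG c) (pc A - pc (X ^ F.natDegree)) →
      pc G = clMap (sigG c) (pc B - pc (X ^ G.natDegree)) →
      ∃ F' G' : k[X], F' ≠ 0 ∧ G' ≠ 0 ∧ F'.natDegree = G'.natDegree ∧
        pc F - pc G = clMap (sigG c) (pc F' - pc G') := by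
    intro F G A B hA hB hAd hBd hF hG
    have hX : ∀ n : ℕ, (X : k[X]) ^ n ≠ 0 := fun n => pow_ne_zero _ X_ne_zero
    refine ⟨A * X ^ G.natDegree, B * X ^ F.natDegree, mul_ne_zero hA (hX _),
      mul_ne_zero hB (hX _), ?_, ?_⟩
    · rw [natDegree_mul hA (hX _), natDegree_mul hB (hX _), natDegree_X_pow, natDegree_X_pow,
        hAd, hBd, add_comm]
    · rw [hF, hG, ← map_sub, pc_mul hA (hX _), pc_mul hB (hX _)]
      congr 1
      abel
  obtain ⟨F, G, hF, hG, hFG, e1⟩ := key _ _ A1 A2 hA1 hA2 hA1d hA2d hA1e hA2e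
  obtain ⟨F', G', hF', hG', hFG', e2⟩ := key _ _ A3 A4 hA3 hA4 hA3d hA4d hA3e hA4e
  set Q' : MultilinearMap ℤ (fun _ : Fin (m + 1) => UV (RatFunc k)) (UV (RatFunc k) →ₗ[ℤ] ℚ) :=
    (LinearMap.lcomp ℤ ℚ (clMap (sigG c))).compMultilinearMap
      (Q.compLinearMap (fun _ => clMap (sigG c))) with hQ'
  have hQ'a : ∀ s v, Q' (fun _ => s) v = Q (fun _ => clMap (sigG c) s) (clMap (sigG c) v) :=
    fun s v => rfl
  have h1 := mainV0 hfin Q' (by
    intro f hf0 hf1
    rw [hQ'a, clMap_cl, clMap_cl, map_sub, map_one]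
    apply hQ
    · rw [Ne, map_eq_zero]; exact hf0
    · intro h
      exact hf1 ((sigG c).injective (by rw [h, map_one]))) F G F' G' hF hG hF' hG' hFG hFG'
  rw [hQ'a] at h1
  rw [hpc f1 hf1, hpc f2 hf2, e1, e2]
  exact h1

/-- all the complexes of `k(x)` are acyclic -/
theorem acyclic_infinite (p : ℕ) [Fact p.Prime] (k : Type) [Field k] [Infinite k]
    [Algebra (ZMod p) k] [Algebra.IsAlgebraic (ZMod p) k] :
    ∃ D : GonP.Differentials (RatFunc k), (∀ D' : GonP.Differentials (RatFunc k), D' = D) ∧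
      D.Acyclic := by
  have : CharP k p := charP_of_injective_algebraMap (algebraMap (ZMod p) k).injective p
  obtain ⟨D⟩ := exists_differentials k p (frob_fix k p)
  exact ⟨GonP.ofD D, fun D' => GonP.unique (GonP.ofD D) D', GonP.ofD_acyclic D
    (acyclic_of_spanDual k p (frob_fix k p) (fun m => spanDual_infinite k p m) D)⟩

end Helper392PC
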