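import Pool.Agent.TH358.BG.Main
import Pool.Agent.Helper392_PC.Core
import Pool.Agent.Helper392_PC.Sd2

/-!
# The complexes `Γ(X,n) ⊗ ℚ` of open subsets of the projective line
-/

set_option autoImplicit false

namespace Helper392PC

open GonP Pool.Agent.TH358.BG

section ex

variable {F : Type} [Field F] {X : Type} {κ : X → Type} [∀ x, Field (κ x)]

theorem exactX (DF : Differentials F) (Dκ : ∀ x, Differentials (κ x)) (res : Res F κ)
    (hG : GenericIso DF Dκ res) (m j : ℕ)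
    (h : Function.Exact (gd DF (m + 1) j) (gd DF m (j + 1))) (z : XT F κ (m + 1) (j + 1)) :
    tot DF Dκ res m (j + 1) z = 0 ↔ ∃ w, tot DF Dκ res (m + 1) j w = z := by
  have hfst : ∀ m j (z : XT F κ (m + 1) j), (tot DF Dκ res m j z).1 = gd DF m j z.1 := hG.1
  have hext : ∀ m j (z w : XT F κ m j), z.1 = w.1 → z = w := fun m j z w h => (hG.2 m j).1 h
  constructor
  · intro hz
    have h1 : gd DF m (j + 1) z.1 = 0 := by
      rw [← hfst, hz]
      rfl
    obtain ⟨a, ha⟩ := (h z.1).1 h1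
    refine ⟨(a, 0), hext _ _ _ _ ?_⟩
    rw [hfst]
    exact ha
  · rintro ⟨w, rfl⟩
    apply hext
    rw [hfst, hfst]
    exact (h _).2 ⟨w.1, rfl⟩

theorem injX (DF : Differentials F) (Dκ : ∀ x, Differentials (κ x)) (res : Res F κ)
    (hG : GenericIso DF Dκ res) (hi0 : Function.Injective (DF.e 0))
    (hi : ∀ m, Function.Injective (DF.d m 0)) (m : ℕ) (z : XT F κ (m + 2) 0)
    (hz : tot DF Dκ res (m + 1) 0 z = 0) : z = 0 := by
  apply (hG.2 (m + 2) 0).1
  have h1 : gd DF (m + 1) 0 z.1 = 0 := by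
    rw [← hG.1, hz]
    rfl
  have h2 : gd DF (m + 1) 0 z.1 = gd DF (m + 1) 0 0 := by rw [h1, gd_zero]
  match m, z, h2 with
  | 0, z, h2 => exact hi0 h2
  | (m + 1), z, h2 => exact hi m h2

end ex

theorem curve_main (p : ℕ) [Fact p.Prime] (k : Type) [Field k] [Algebra (ZMod p) k]
    [Algebra.IsAlgebraic (ZMod p) k] :
    Nonempty (Differentials (RatFunc k)) ∧
    ∀ (X : Type) (κ : X → Type) [∀ x, Field (κ x)] [∀ x, Algebra (ZMod p) (κ x)]
      [∀ x, Algebra.IsAlgebraic (ZMod p) (κ x)],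
      (∀ x, Nonempty (Differentials (κ x))) ∧
      ∀ (DF : Differentials (RatFunc k)) (Dκ : ∀ x, Differentials (κ x))
        (res : Res (RatFunc k) κ),
        (Infinite k → XAcyclic DF Dκ res) ∧
        (∀ m z, tot DF Dκ res (m + 1) 0 z = 0 → z = 0) ∧
        (∀ j z, tot DF Dκ res 1 (j + 1) z = 0 ↔ ∃ w, tot DF Dκ res 2 j w = z) ∧
        (∀ j z, tot DF Dκ res 0 (j + 1) z = 0 ↔ ∃ w, tot DF Dκ res 1 j w = z) ∧
        ∀ j z, ∃ w, tot DF Dκ res 0 (j + 1) w = z := by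
  obtain ⟨D0, hu, hs, he, hi0, hi⟩ := parts_P p k
  refine ⟨⟨D0⟩, fun X κ _ _ _ => ⟨fun x => nonempty_diff p (κ x), fun DF Dκ res => ?_⟩⟩
  have hD := hu DF
  subst hD
  have hG := generic p (RatFunc k) κ DF Dκ res
  refine ⟨fun hinf => ?_, fun m z hz => injX DF Dκ res hG hi0 hi m z hz, fun j z => ?_,
    fun j z => ?_, fun j z => ⟨0, (hG.2 _ _).1 rfl⟩⟩
  · obtain ⟨D1, hu1, hA⟩ := acyclic_infinite p k
    have hD1 := hu1 DF
    rw [← hD1] at hA
    exact (xacyclic _ _ DF Dκ res hG).2 hA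
  · exact exactX DF Dκ res hG 1 j (he j) z
  · apply exactX DF Dκ res hG 0 j
    intro y
    constructor
    · intro _
      exact hs j y
    · intro _
      rfl

end Helper392PC
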