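import Pool.Agent.H39R2.Gon.A2
import Pool.Agent.Helper392_PC.CountG

/-!
# The finite field theorem with fixed factors
-/

set_option autoImplicit false

namespace Helper392PC

open Finset H39Gon H39Gon.A2

/-- coefficient of a slot in `div(1-f)` -/
noncomputable def c0o {d : ℕ} (n : Fin 3 → ℕ) : Option (Fin 3 × Fin d) → ℝ
  | none => 1
  | some a => if a.2.val < n a.1 then c0 a.1 else 0

/-- coefficient of a slot in `div f` -/
noncomputable def c1o {d : ℕ} (n : Fin 3 → ℕ) : Option (Fin 3 × Fin d) → ℝ
  | none => 1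
  | some a => if a.2.val < n a.1 then c1 a.1 else 0

theorem abs_c0o {d : ℕ} (n : Fin 3 → ℕ) (a : Option (Fin 3 × Fin d)) : |c0o n a| ≤ 1 := by
  rcases a with _ | a
  · simp [c0o]
  · simp only [c0o]
    split_ifs
    · exact abs_c0 _
    · simp

theorem abs_c1o {d : ℕ} (n : Fin 3 → ℕ) (a : Option (Fin 3 × Fin d)) : |c1o n a| ≤ 1 := by
  rcases a with _ | a
  · simp [c1o]
  · simp only [c1o]
    split_ifs
    · exact abs_c1 _
    · simp

/-- sign of a slot assignment -/
noncomputable def sgo {m d : ℕ} (n : Fin 3 → ℕ) (j : Fin (m + 2) → Option (Fin 3 × Fin d)) : ℝ :=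
  c0o n (j 0) * ∏ i : Fin (m + 1), c1o n (j i.succ)

theorem abs_sgo {m d : ℕ} (n : Fin 3 → ℕ) (j : Fin (m + 2) → Option (Fin 3 × Fin d)) :
    |sgo n j| ≤ 1 := by
  unfold sgo
  rw [abs_mul, abs_prod]
  have h1 : ∏ i : Fin (m + 1), |c1o n (j i.succ)| ≤ 1 :=
    prod_le_one (fun i _ => abs_nonneg _) (fun i _ => abs_c1o n _)
  have h2 := abs_c0o n (j 0)
  have h3 : 0 ≤ ∏ i : Fin (m + 1), |c1o n (j i.succ)| := prod_nonneg fun i _ => abs_nonneg _
  calc |c0o n (j 0)| * ∏ i : Fin (m + 1), |c1o n (j i.succ)| ≤ 1 * 1 :=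
        mul_le_mul h2 h1 h3 (by norm_num)
    _ = 1 := one_mul 1

/-- values of the slots -/
def zt {m : ℕ} {I K : Type} (z : I → K) (j : Fin (m + 2) → Option I) : Fin (m + 2) → Option K :=
  fun i => (j i).map z

open Classical in
/-- weight of the fixed entries -/
noncomputable def ex {m : ℕ} {α : Type} (t : Fin (m + 2) → Option α) : ℕ :=
  (univ.filter (fun i => t i = none)).card +
    (univ.filter (fun i : Fin (m + 1) => t i.succ = none)).card

open Classical in
/-- number of the fixed entries -/
noncomputable def ns {m : ℕ} {α : Type} (t : Fin (m + 2) → Option α) : ℕ :=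
  (univ.filter (fun i => t i = none)).card

theorem ex_eq {m : ℕ} {α : Type} (t : Fin (m + 2) → Option α) :
    (t 0 = none → ex t + 1 = 2 * ns t) ∧ (t 0 ≠ none → ex t = 2 * ns t) := by
  classical
  unfold ex ns
  have h1 : (univ.filter (fun i : Fin (m + 2) => t i = none)).card =
      (if t 0 = none then 1 else 0) +
        (univ.filter (fun i : Fin (m + 1) => t i.succ = none)).card := by
    rw [Finset.card_filter, Finset.card_filter, Fin.sum_univ_succ]
  constructor
  · intro h
    rw [if_pos h] at h1
    omega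
  · intro h
    rw [if_neg h] at h1
    omega

theorem ex_le {m : ℕ} {α : Type} (t : Fin (m + 2) → Option α) : ex t ≤ 2 * (m + 2) := by
  classical
  unfold ex
  have h1 := Finset.card_le_univ (univ.filter (fun i : Fin (m + 2) => t i = none))
  have h2 := Finset.card_le_univ (univ.filter (fun i : Fin (m + 1) => t i.succ = none))
  simp only [Fintype.card_fin] at h1 h2
  omega

theorem ex_zt {m : ℕ} {I K : Type} (z : I → K) (j : Fin (m + 2) → Option I) :
    ex (zt z j) = ex j := by
  unfold ex zt
  simp

section contr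

variable {m d : ℕ} {K : Type} [Field K] [Fintype K] [DecidableEq K]

/-- the non-fixed entries -/
abbrev Iot (t : Fin (m + 2) → Option K) : Type := {i : Fin (m + 2) // t i ≠ none}

/-- their values -/
def tvl (t : Fin (m + 2) → Option K) (i : Iot t) : K :=
  (t i.1).get (Option.ne_none_iff_isSome.1 i.2)

omit [Field K] [Fintype K] [DecidableEq K] in
theorem tvl_some (t : Fin (m + 2) → Option K) (i : Iot t) : some (tvl t i) = t i.1 := by
  unfold tvl
  simp

/-- slot of an entry -/
def slo (hd : m + 2 ≤ d) (t : Fin (m + 2) → Option K) (i : Fin (m + 2)) : Fin 3 × Fin d :=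
  (if t i = t 0 then 2 else 0, Fin.castLE hd i)

/-- slots of the non-fixed entries -/
def ksl (hd : m + 2 ≤ d) (t : Fin (m + 2) → Option K) (i : Iot t) : Fin 3 × Fin d :=
  slo hd t i.1

/-- slots of all the entries -/
def kap (hd : m + 2 ≤ d) (t : Fin (m + 2) → Option K) (i : Fin (m + 2)) :
    Option (Fin 3 × Fin d) :=
  if t i = none then none else some (slo hd t i)

theorem ksl_inj (hd : m + 2 ≤ d) (t : Fin (m + 2) → Option K) :
    Function.Injective (ksl hd t) := by
  intro i i' h
  have := (Prod.ext_iff.1 h).2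
  exact Subtype.ext (Fin.castLE_injective hd this)

/-- extension of the values to all slots -/
def tsl (t : Fin (m + 2) → Option K) : Fin 3 × Fin d → K :=
  fun a => if h : (a.2 : ℕ) < m + 2 then (t ⟨a.2, h⟩).getD 0 else 0

theorem tsl_ksl (hd : m + 2 ≤ d) (t : Fin (m + 2) → Option K) (i : Iot t) :
    tsl (d := d) t (ksl hd t i) = tvl t i := by
  unfold tsl ksl slo
  have h := tvl_some t i
  simp only [Fin.val_castLE, Fin.is_lt, dite_true, Fin.eta]
  rw [← h]
  rfl

/-- functions of the non-fixed entries -/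
def exq (t : Fin (m + 2) → Option K) (u : Iot t → K) : Fin (m + 2) → Option K :=
  fun i => if h : t i ≠ none then some (u ⟨i, h⟩) else none

theorem exq_tvl (t : Fin (m + 2) → Option K) : exq t (tvl t) = t := by
  funext i
  unfold exq
  split_ifs with h
  · exact tvl_some t ⟨i, h⟩
  · push Not at h
    exact h.symm

theorem exq_kap (hd : m + 2 ≤ d) (t : Fin (m + 2) → Option K) (z : Fin 3 × Fin d → K) :
    zt z (kap hd t) = exq t (z ∘ ksl hd t) := by
  funext i
  unfold zt exq kap ksl
  by_cases h : t i = none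
  · simp [h]
  · simp [h]

theorem main_permG (hd : m + 2 ≤ d) (t : Fin (m + 2) → Option K)
    (σ : Equiv.Perm (Fin (m + 2))) (Φ : (Fin (m + 2) → Option K) → ℝ)
    (hbal : ∀ (t : Fin (m + 2) → Option K) (i : Fin (m + 2)),
      ∑ x : K, Φ (Function.update t i (some x)) = 0) :
    ∑ z : Fin 3 × Fin d → K, hh (ksl hd t) (tvl t) z * Φ (zt z (kap hd t ∘ σ)) =
      NQ (Fin 3 × Fin d) K * Φ (t ∘ σ) := by
  have h := main_perm (ksl hd t) (ksl_inj hd t) (tvl t) (tsl t) (tsl_ksl hd t) 1
    (fun u => Φ (exq t u ∘ σ)) (by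
      intro u i
      have h1 : ∀ x : K, exq t (Function.update u i x) ∘ σ =
          Function.update (exq t u ∘ σ) (σ.symm i.1) (some x) := by
        intro x
        funext a
        by_cases ha : a = σ.symm i.1
        · subst ha
          simp only [Function.comp_apply, Equiv.apply_symm_apply, Function.update_self]
          unfold exq
          rw [dif_pos i.2]
          simp
        · have h2 : σ a ≠ i.1 := fun h => ha (by rw [← h]; simp)
          rw [Function.update_of_ne ha]
          simp only [Function.comp_apply]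
          unfold exq
          split_ifs with h3
          · rw [Function.update_of_ne]
            intro h4
            exact h2 (congrArg Subtype.val h4)
          · rfl
      simp only [h1]
      exact hbal _ _)
  have e1 : (fun i => tvl t i) = tvl t := rfl
  simp only [Equiv.Perm.coe_one, Function.comp_id] at h
  rw [exq_tvl] at h
  rw [← h]
  apply Finset.sum_congr rfl
  intro z _
  congr 2
  have h2 : zt z (kap hd t ∘ σ) = zt z (kap hd t) ∘ σ := rfl
  rw [h2, exq_kap]

theorem sum_abs_hh {I ι : Type} [Fintype I] [DecidableEq I] [Fintype ι] [DecidableEq ι]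
    (k : ι → I) (hk : Function.Injective k) (t : ι → K) (ts : I → K)
    (hts : ∀ i, ts (k i) = t i) :
    ∑ z : I → K, |hh k t z| ≤ 2 ^ Fintype.card ι * NQ I K := by
  have h1 : ∀ z : I → K, |hh k t z| ≤ ∑ U ∈ (univ : Finset ι).powerset,
      ((Fintype.card K : ℝ) ^ U.card * (if ∀ i ∈ U, z (k i) = t i then 1 else 0)) * 1 := by
    intro z
    rw [hh_expand]
    refine (abs_sum_le_sum_abs _ _).trans ?_
    apply Finset.sum_le_sum
    intro U _
    rw [abs_mul, abs_pow, abs_neg, abs_one, one_pow, one_mul, mul_one]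
    rw [abs_of_nonneg]
    split_ifs <;> positivity
  refine (Finset.sum_le_sum (fun z _ => h1 z)).trans ?_
  rw [Finset.sum_comm]
  have h2 : ∀ U ∈ (univ : Finset ι).powerset, ∑ z : I → K,
      ((Fintype.card K : ℝ) ^ U.card * (if ∀ i ∈ U, z (k i) = t i then (1 : ℝ) else 0)) * 1 =
      NQ I K := by
    intro U _
    rw [sum_cond' k hk t ts hts U (fun _ => 1)]
    unfold A
    simp only [sum_const, card_univ, nsmul_eq_mul, mul_one]
    rw [card_fun, div_self (NQ_pos (I := I) (K := K)).ne', mul_one]
  rw [Finset.sum_congr rfl h2, sum_const, card_powerset, card_univ, nsmul_eq_mul]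
  push_cast
  exact le_refl _

theorem sgo_kap (hd : m + 2 ≤ d) (n : Fin 3 → ℕ) (t : Fin (m + 2) → Option K)
    (Φ : (Fin (m + 2) → Option K) → ℝ)
    (hsym : ∀ (σ : Equiv.Perm (Fin (m + 2))) (t : Fin (m + 2) → Option K), σ 0 = 0 →
      Φ (t ∘ σ) = Φ t)
    (σ : Equiv.Perm (Fin (m + 2))) (h : t (σ 0) = t 0) :
    sgo n (kap hd t ∘ σ) * Φ (t ∘ σ) = (∏ i, c1o n (kap hd t i)) * Φ t := by
  have h1 : sgo n (kap hd t ∘ σ) = ∏ i, c1o n (kap hd t i) := by
    rw [← Equiv.prod_comp σ, Fin.prod_univ_succ]
    unfold sgo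
    simp only [Function.comp]
    congr 1
    unfold kap
    split_ifs with h2
    · rfl
    · unfold slo c0o c1o
      simp [h, c0, c1]
  rw [h1]
  congr 1
  have h2 : t ∘ (Equiv.swap 0 (σ 0)) = t := by
    ext1 i
    simp only [Function.comp]
    by_cases h0 : i = 0
    · subst h0
      simp [h]
    · by_cases h1 : i = σ 0
      · subst h1
        simp [h]
      · rw [Equiv.swap_apply_of_ne_of_ne h0 h1]
  have h3 : t ∘ (Equiv.swap 0 (σ 0) * σ : Equiv.Perm (Fin (m + 2))) = t ∘ σ := by
    rw [Equiv.Perm.coe_mul, ← Function.comp_assoc, h2]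
  rw [← h3]
  exact hsym _ t (by simp)

theorem c1_kap (hd : m + 2 ≤ d) (n : Fin 3 → ℕ) (hn : ∀ Y, m + 2 ≤ n Y)
    (t : Fin (m + 2) → Option K) (i : Fin (m + 2)) : |c1o n (kap hd t i)| = 1 := by
  unfold kap
  split_ifs with h
  · simp [c1o]
  · unfold slo c1o
    have h1 : ∀ Y, (Fin.castLE hd i).val < n Y := by
      intro Y
      have := hn Y
      have := i.2
      simp only [Fin.val_castLE]
      omega
    simp only
    rw [if_pos (h1 _)]
    split_ifs with h2
    · simp [c1]
    · simp [c1]

theorem classify (hd : m + 2 ≤ d) (n : Fin 3 → ℕ) (t : Fin (m + 2) → Option K)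
    (j : Fin (m + 2) → Option (Fin 3 × Fin d)) (hex : ex t ≤ ex j)
    (hcov : ∀ i0 : Iot t, ∃ i, j i = some (ksl hd t i0))
    (hS : ¬ ∃ σ : Equiv.Perm (Fin (m + 2)), j = kap hd t ∘ σ ∧ t (σ 0) = t 0) :
    sgo n j = 0 := by
  classical
  choose τ hτ using hcov
  have hτn : ∀ i0, j (τ i0) ≠ none := fun i0 => by rw [hτ]; simp
  let τ' : {x : Fin (m + 2) // t x ≠ none} → {x : Fin (m + 2) // j x ≠ none} :=
    fun i0 => ⟨τ i0, hτn i0⟩
  have hτi : Function.Injective τ' := by
    intro a b hab
    apply ksl_inj hd t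
    have h1 : τ a = τ b := congrArg Subtype.val hab
    have h2 := (hτ a).symm.trans ((congrArg j h1).trans (hτ b))
    exact Option.some_injective _ h2
  have hc := Fintype.card_le_of_injective τ' hτi
  have hct : Fintype.card {x : Fin (m + 2) // t x ≠ none} + ns t = m + 2 := by
    have := Finset.card_filter_add_card_filter_not (s := (univ : Finset (Fin (m + 2))))
      (fun x => t x = none)
    rw [Fintype.card_subtype]
    unfold ns
    simp only [card_univ, Fintype.card_fin, ne_eq] at this ⊢
    omega
  have hcj : Fintype.card {x : Fin (m + 2) // j x ≠ none} + ns j = m + 2 := by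
    have := Finset.card_filter_add_card_filter_not (s := (univ : Finset (Fin (m + 2))))
      (fun x => j x = none)
    rw [Fintype.card_subtype]
    unfold ns
    simp only [card_univ, Fintype.card_fin, ne_eq] at this ⊢
    omega
  have et := ex_eq t
  have ej := ex_eq j
  have hj0 : ns j = ns t ∧ (j 0 = none → t 0 = none) := by
    by_cases h1 : t 0 = none
    · have h1' := et.1 h1
      by_cases h2 : j 0 = none
      · have h2' := ej.1 h2
        exact ⟨by omega, fun _ => h1⟩
      · have h2' := ej.2 h2
        exact ⟨by omega, fun _ => h1⟩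
    · have h1' := et.2 h1
      by_cases h2 : j 0 = none
      · have h2' := ej.1 h2
        omega
      · have h2' := ej.2 h2
        exact ⟨by omega, fun h => absurd h h2⟩
  have hbij : Function.Bijective τ' := by
    rw [Fintype.bijective_iff_injective_and_card]
    exact ⟨hτi, by omega⟩
  let e := Equiv.ofBijective τ' hbij
  let π : Equiv.Perm (Fin (m + 2)) := e.extendSubtype
  have hπ : ∀ x, j (π x) = kap hd t x := by
    intro x
    unfold kap
    by_cases hx : t x = none
    · rw [if_pos hx]
      by_contra h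
      exact e.extendSubtype_not_mem x (by simpa using hx) h
    · rw [if_neg hx]
      have h1 : π x = τ ⟨x, hx⟩ := e.extendSubtype_apply_of_mem x hx
      rw [h1, hτ]
      rfl
  have hjk : j = kap hd t ∘ π.symm := by
    funext x
    simp only [Function.comp_apply]
    rw [← hπ, Equiv.apply_symm_apply]
  have hne : t (π.symm 0) ≠ t 0 := fun h => hS ⟨π.symm, hjk, h⟩
  have h0 : j 0 = kap hd t (π.symm 0) := congrFun hjk 0
  have hz : c0o n (j 0) = 0 := by
    by_cases hx : t (π.symm 0) = none
    · exfalso
      apply hne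
      rw [hx]
      have : j 0 = none := by rw [h0]; unfold kap; rw [if_pos hx]
      exact (hj0.2 this).symm
    · rw [h0]
      unfold kap
      rw [if_neg hx]
      unfold slo c0o
      rw [if_neg hne]
      simp [c0]
  unfold sgo
  rw [hz, zero_mul]

end contr

end Helper392PC
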