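import Pool.Agent.Helper392_PC.FTG

/-!
# The finite field theorem with fixed factors: the contraction argument
-/

set_option autoImplicit false

namespace Helper392PC

open Finset H39Gon H39Gon.A2 Polynomial

/-- the finite field theorem with fixed factors -/
def FTGs (m e d : ℕ) : Prop :=
  ∃ q0 : ℕ, ∀ (K : Type) [Field K] [Fintype K] [DecidableEq K], q0 ≤ Fintype.card K →
    ∀ (M0 : Fin 3 → K[X]) (n : Fin 3 → ℕ), (∀ Y, (M0 Y).Monic) →
    (∀ Y, (M0 Y).natDegree + n Y = d) → (∀ Y, (M0 Y).natDegree ≤ e) →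
    (∀ Y Y', Y ≠ Y' → IsCoprime (M0 Y) (M0 Y')) → (∀ Y (a : K), (M0 Y).eval a ≠ 0) →
    ∀ Φ : (Fin (m + 2) → Option K) → ℝ,
      (∀ (t : Fin (m + 2) → Option K) (i : Fin (m + 2)),
        ∑ x : K, Φ (Function.update t i (some x)) = 0) →
      (∀ (σ : Equiv.Perm (Fin (m + 2))) (t : Fin (m + 2) → Option K), σ 0 = 0 →
        Φ (t ∘ σ) = Φ t) →
      (∀ z : Fin 3 × Fin d → K,
        (∃ l : Fin 3 → Kˣ, ∑ Y : Fin 3, C (l Y : K) *
          (M0 Y * ∏ i ∈ RX n Y, (Polynomial.X - C (z (Y, i)))) = 0) →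
        ∑ j : Fin (m + 2) → Option (Fin 3 × Fin d), sgo n j * Φ (zt z j) = 0) →
      ∀ t, Φ t = 0

theorem ftg (m e d : ℕ) (hd : 2 * (3 * e + 2 * (m + 2)) ≤ d) : FTGs m e d := by
  classical
  have hd2 : m + 2 ≤ d := by omega
  set NJ : ℝ := (Fintype.card (Fin (m + 2) → Option (Fin 3 × Fin d)) : ℝ) with hNJ
  have hNJ1 : 1 ≤ NJ := by
    rw [hNJ]
    exact_mod_cast Fintype.card_pos
  set Λ : ℝ := 4 * NJ * 2 ^ (m + 2) with hΛ
  have hΛ1 : 1 ≤ Λ := by
    rw [hΛ]
    have : (1 : ℝ) ≤ 2 ^ (m + 2) := one_le_pow₀ (by norm_num)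
    nlinarith
  have hΛ0 : 0 < Λ := by linarith
  set C0 : ℝ := NJ * (2 ^ (m + 2) * Λ ^ (2 * (m + 2))) with hC0
  have hC0pos : 0 < C0 := by positivity
  obtain ⟨q1, hq1⟩ := countThmG (2 * (m + 2)) e d (by omega) (1 / (12 * C0)) (by positivity)
  obtain ⟨q2, hq2⟩ := exists_nat_gt (8 * C0 * ((2 * (m + 2) : ℕ) : ℝ) ^ 2)
  refine ⟨max q1 q2, ?_⟩
  intro K _ _ _ hK M0 n hM0 hdn he hcop hroot Φ hbal hsym hrel
  by_contra hcon
  push Not at hcon
  obtain ⟨t0, ht0⟩ := hcon
  have hn : ∀ Y, m + 2 ≤ n Y := by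
    intro Y
    have h1 := he Y
    have h2 := hdn Y
    omega
  obtain ⟨t, htmax⟩ := Finite.exists_max
    (fun t : Fin (m + 2) → Option K => |Φ t| / Λ ^ (ex t))
  have hM0' : 0 < |Φ t| := by
    have h1 : 0 < |Φ t0| / Λ ^ (ex t0) := div_pos (abs_pos.2 ht0) (by positivity)
    have h2 := lt_of_lt_of_le h1 (htmax t0)
    by_contra h3
    have h4 : |Φ t| = 0 := le_antisymm (not_lt.1 h3) (abs_nonneg _)
    simp [h4] at h2
  have hbig : ∀ t', |Φ t'| ≤ |Φ t| * Λ ^ (2 * (m + 2)) := by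
    intro t'
    have h1 := htmax t'
    have h2 : |Φ t| / Λ ^ (ex t) ≤ |Φ t| := div_le_self (abs_nonneg _) (one_le_pow₀ hΛ1)
    have h3 : |Φ t'| = |Φ t'| / Λ ^ (ex t') * Λ ^ (ex t') := by
      field_simp
    rw [h3]
    apply mul_le_mul (h1.trans h2) (pow_le_pow_right₀ hΛ1 (ex_le t')) (by positivity)
      (abs_nonneg _)
  have hsmall : ∀ t', ex t' < ex t → |Φ t'| ≤ |Φ t| / Λ := by
    intro t' ht'
    have h1 := htmax t'
    rw [div_le_div_iff₀ (by positivity) (by positivity)] at h1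
    rw [le_div_iff₀ hΛ0]
    have h2 : Λ ^ (ex t) = Λ ^ (ex t') * Λ ^ (ex t - ex t') := by
      rw [← pow_add]; congr 1; omega
    rw [h2] at h1
    have h3 : |Φ t'| * Λ ^ (ex t - ex t') ≤ |Φ t| := by
      have h4 : 0 < Λ ^ (ex t') := by positivity
      nlinarith
    have h5 : Λ ≤ Λ ^ (ex t - ex t') := by
      calc Λ = Λ ^ 1 := (pow_one _).symm
        _ ≤ _ := pow_le_pow_right₀ hΛ1 (by omega)
    exact (mul_le_mul_of_nonneg_left h5 (abs_nonneg _)).trans h3
  have hq : (1 : ℝ) < Fintype.card K := by exact_mod_cast Fintype.one_lt_card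
  have hw : 0 < wbar (Fintype.card K) d := by
    unfold wbar
    have : (0 : ℝ) < (Fintype.card K : ℝ) - 1 := by linarith
    positivity
  set w := wbar (Fintype.card K) d with hwdef
  set ε : ℝ := 1 / (12 * C0) with hε
  have hNQ : NQ (Fin 3 × Fin d) K = (Fintype.card K : ℝ) ^ (3 * d) := by
    unfold NQ
    simp
  have hNQpos : 0 < NQ (Fin 3 × Fin d) K := NQ_pos
  have hT : ∀ T : Finset (Fin 3 × Fin d), T.card ≤ 2 * (m + 2) → ∀ z : Fin 3 × Fin d → K,
      Good (fun a : Fin 3 × Fin d => a.1) T z → |A T (WtG M0 n) z - w| ≤ ε * w := by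
    intro T hTc z hz
    have := hq1 K (le_trans (le_max_left _ _) hK) M0 n hM0 hdn he hcop hroot T hTc z hz
    unfold A
    rw [hNQ]
    exact this
  have hW : ∀ z : Fin 3 × Fin d → K, 0 ≤ WtG M0 n z := fun z => Nat.cast_nonneg _
  -- the total relation
  have hR : ∀ z : Fin 3 × Fin d → K,
      WtG M0 n z * ∑ j : Fin (m + 2) → Option (Fin 3 × Fin d), sgo n j * Φ (zt z j) = 0 := by
    intro z
    by_cases h0 : WtG M0 n z = 0
    · rw [h0, zero_mul]
    · have hne : Nonempty {l : Fin 3 → Kˣ //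
          ∑ Y : Fin 3, Polynomial.C (l Y : K) *
            (M0 Y * ∏ i ∈ RX n Y, (Polynomial.X - Polynomial.C (z (Y, i)))) = 0} := by
        by_contra hcon
        rw [not_nonempty_iff] at hcon
        apply h0
        unfold WtG
        rw [Nat.card_of_isEmpty]
        simp
      obtain ⟨l, hl⟩ := hne
      rw [hrel z ⟨l, hl⟩, mul_zero]
  set k := ksl hd2 t with hk
  set tv := tvl t with htv
  have hsum : ∑ j : Fin (m + 2) → Option (Fin 3 × Fin d), sgo n j *
      ((∑ z : Fin 3 × Fin d → K, (WtG M0 n z - w) * hh k tv z * Φ (zt z j)) +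
        w * ∑ z : Fin 3 × Fin d → K, hh k tv z * Φ (zt z j)) = 0 := by
    have h1 : ∀ j : Fin (m + 2) → Option (Fin 3 × Fin d),
      sgo n j * ((∑ z : Fin 3 × Fin d → K, (WtG M0 n z - w) * hh k tv z * Φ (zt z j)) +
        w * ∑ z : Fin 3 × Fin d → K, hh k tv z * Φ (zt z j))
      = ∑ z : Fin 3 × Fin d → K, hh k tv z * (WtG M0 n z * (sgo n j * Φ (zt z j))) := by
      intro j
      rw [mul_sum, ← sum_add_distrib, mul_sum]
      refine sum_congr rfl fun z _ => ?_
      ring
    rw [sum_congr rfl fun j _ => h1 j, sum_comm]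
    refine sum_eq_zero fun z _ => ?_
    rw [← mul_sum, ← mul_sum, hR, mul_zero]
  have hιc : Fintype.card (Iot t) ≤ m + 2 := by
    have := Fintype.card_subtype_le (fun i : Fin (m + 2) => t i ≠ none)
    simpa only [Fintype.card_fin] using this
  have h2ι : (2 : ℝ) ^ Fintype.card (Iot t) ≤ 2 ^ (m + 2) :=
    pow_le_pow_right₀ (by norm_num) hιc
  -- error terms
  set q : ℝ := (Fintype.card K : ℝ) with hqdef
  set B : ℝ := 2 ^ (m + 2) * ((|Φ t| * Λ ^ (2 * (m + 2))) * (NQ (Fin 3 × Fin d) K *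
    ((3 * ε + 2 * (((2 * (m + 2) : ℕ) : ℝ) ^ 2 / q)) * w))) with hB
  have hD : ∀ j : Fin (m + 2) → Option (Fin 3 × Fin d),
      |∑ z : Fin 3 × Fin d → K, (WtG M0 n z - w) * hh k tv z * Φ (zt z j)| ≤ B := by
    intro j
    have := err_j (fun a : Fin 3 × Fin d => a.1) (WtG M0 n) hW w ε hw.le
      (2 * (m + 2)) hT k (ksl_inj hd2 t) tv (tsl t) (tsl_ksl hd2 t)
      (by
        intro i i' hii' hcon
        apply hii'
        have h1 : t i.1 = t i'.1 := by rw [← tvl_some t i, ← tvl_some t i', ← htv, hcon]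
        simp only [hk, ksl, slo, h1])
      (univ.biUnion (fun i => (j i).toFinset)) (by
        have : (univ.biUnion (fun i : Fin (m + 2) => (j i).toFinset)).card ≤ m + 2 := by
          refine card_biUnion_le.trans ?_
          calc ∑ i : Fin (m + 2), (j i).toFinset.card ≤ ∑ i : Fin (m + 2), 1 := by
                apply Finset.sum_le_sum
                intro i _
                rcases j i with _ | a <;> simp
            _ = m + 2 := by simp
        omega)
      (fun z => Φ (zt z j)) (by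
        intro z z' hz
        beta_reduce
        congr 1
        funext i
        unfold zt
        cases hji : j i with
        | none => rfl
        | some a =>
          simp only [Option.map_some, Option.some_inj]
          apply hz
          rw [mem_biUnion]
          exact ⟨i, mem_univ _, by rw [hji]; simp⟩) (|Φ t| * Λ ^ (2 * (m + 2)))
          (fun z => hbig _)
    refine this.trans ?_
    rw [hB]
    have hpos : 0 ≤ (|Φ t| * Λ ^ (2 * (m + 2))) * (NQ (Fin 3 × Fin d) K *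
      ((3 * ε + 2 * (((2 * (m + 2) : ℕ) : ℝ) ^ 2 / q)) * w)) := by
      have : 0 ≤ ε := by rw [hε]; positivity
      positivity
    exact mul_le_mul_of_nonneg_right h2ι hpos
  -- main terms
  set Ej : (Fin (m + 2) → Option (Fin 3 × Fin d)) → ℝ :=
    fun j => ∑ z : Fin 3 × Fin d → K, hh k tv z * Φ (zt z j) with hEj
  set Sset : Finset (Fin (m + 2) → Option (Fin 3 × Fin d)) := univ.filter
    (fun j => ∃ σ : Equiv.Perm (Fin (m + 2)), j = kap hd2 t ∘ σ ∧ t (σ 0) = t 0) with hSset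
  set c : ℝ := ∏ i, c1o n (kap hd2 t i) with hc
  have hcabs : |c| = 1 := by
    rw [hc, abs_prod]
    exact prod_eq_one fun i _ => c1_kap hd2 n hn t i
  have hmain : ∀ j ∈ Sset, sgo n j * Ej j = NQ (Fin 3 × Fin d) K * (c * Φ t) := by
    intro j hj
    rw [hSset, mem_filter] at hj
    obtain ⟨σ, rfl, hσ⟩ := hj.2
    rw [hEj]
    simp only
    rw [hk, htv, main_permG hd2 t σ Φ hbal, hc, ← sgo_kap hd2 n t Φ hsym σ hσ]
    ring
  have hrest : ∀ j, j ∉ Sset → |sgo n j * Ej j| ≤ 2 ^ (m + 2) * NQ (Fin 3 × Fin d) K *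
      (|Φ t| / Λ) := by
    intro j hj
    have hpos : 0 ≤ 2 ^ (m + 2) * NQ (Fin 3 × Fin d) K * (|Φ t| / Λ) := by positivity
    by_cases hex : ex j < ex t
    · rw [abs_mul]
      have h1 : |Ej j| ≤ 2 ^ (m + 2) * NQ (Fin 3 × Fin d) K * (|Φ t| / Λ) := by
        rw [hEj]
        simp only
        calc |∑ z : Fin 3 × Fin d → K, hh k tv z * Φ (zt z j)|
            ≤ ∑ z : Fin 3 × Fin d → K, |hh k tv z * Φ (zt z j)| := abs_sum_le_sum_abs _ _
          _ ≤ ∑ z : Fin 3 × Fin d → K, |hh k tv z| * (|Φ t| / Λ) := by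
              apply Finset.sum_le_sum
              intro z _
              rw [abs_mul]
              apply mul_le_mul_of_nonneg_left _ (abs_nonneg _)
              apply hsmall
              rw [ex_zt]
              exact hex
          _ = (∑ z : Fin 3 × Fin d → K, |hh k tv z|) * (|Φ t| / Λ) := by rw [sum_mul]
          _ ≤ (2 ^ Fintype.card (Iot t) * NQ (Fin 3 × Fin d) K) * (|Φ t| / Λ) := by
              apply mul_le_mul_of_nonneg_right _ (by positivity)
              exact sum_abs_hh k (ksl_inj hd2 t) tv (tsl t) (tsl_ksl hd2 t)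
          _ ≤ _ := by
              apply mul_le_mul_of_nonneg_right _ (by positivity)
              exact mul_le_mul_of_nonneg_right h2ι hNQpos.le
      calc |sgo n j| * |Ej j| ≤ 1 * (2 ^ (m + 2) * NQ (Fin 3 × Fin d) K * (|Φ t| / Λ)) :=
            mul_le_mul (abs_sgo n j) h1 (abs_nonneg _) (by norm_num)
        _ = _ := one_mul _
    · push Not at hex
      by_cases hcov : ∀ i0 : Iot t, ∃ i, j i = some (ksl hd2 t i0)
      · have h1 : sgo n j = 0 := by
          apply classify hd2 n t j hex hcov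
          intro h
          apply hj
          rw [hSset, mem_filter]
          exact ⟨mem_univ _, h⟩
        rw [h1, zero_mul, abs_zero]
        exact hpos
      · push Not at hcov
        obtain ⟨i0, hi0⟩ := hcov
        have h1 : Ej j = 0 := by
          rw [hEj]
          simp only
          apply main_zero k (ksl_inj hd2 t) tv i0 (by positivity) (fun z => Φ (zt z j))
          intro z x
          beta_reduce
          congr 1
          funext i
          unfold zt
          cases hji : j i with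
          | none => rfl
          | some a =>
            simp only [Option.map_some, Option.some_inj]
            rw [Function.update_of_ne]
            intro h
            exact hi0 i (by rw [hji, h])
        rw [h1, mul_zero, abs_zero]
        exact hpos
  have hone : (1 : ℝ) ≤ (Sset.card : ℝ) := by
    have : 0 < Sset.card := by
      apply card_pos.2
      refine ⟨kap hd2 t, ?_⟩
      rw [hSset, mem_filter]
      exact ⟨mem_univ _, 1, by simp, by simp⟩
    exact_mod_cast this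
  have hfin : w * (Sset.card * (NQ (Fin 3 × Fin d) K * (c * Φ t))) =
      - (∑ j : Fin (m + 2) → Option (Fin 3 × Fin d), sgo n j *
        ∑ z : Fin 3 × Fin d → K, (WtG M0 n z - w) * hh k tv z * Φ (zt z j)) -
      w * ∑ j ∈ univ \ Sset, sgo n j * Ej j := by
    have h1 : ∑ j ∈ Sset, sgo n j * Ej j = Sset.card * (NQ (Fin 3 × Fin d) K * (c * Φ t)) := by
      rw [sum_congr rfl hmain, sum_const, nsmul_eq_mul]
    have h2 : ∑ j : Fin (m + 2) → Option (Fin 3 × Fin d), sgo n j * Ej j =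
        ∑ j ∈ univ \ Sset, sgo n j * Ej j + ∑ j ∈ Sset, sgo n j * Ej j :=
      (Finset.sum_sdiff (subset_univ Sset)).symm
    have h3 : ∑ j : Fin (m + 2) → Option (Fin 3 × Fin d), sgo n j *
      ((∑ z : Fin 3 × Fin d → K, (WtG M0 n z - w) * hh k tv z * Φ (zt z j)) +
        w * ∑ z : Fin 3 × Fin d → K, hh k tv z * Φ (zt z j)) =
      (∑ j : Fin (m + 2) → Option (Fin 3 × Fin d), sgo n j *
        ∑ z : Fin 3 × Fin d → K, (WtG M0 n z - w) * hh k tv z * Φ (zt z j)) +
      w * ∑ j : Fin (m + 2) → Option (Fin 3 × Fin d), sgo n j * Ej j := by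
      rw [mul_sum, ← sum_add_distrib]
      refine sum_congr rfl fun j _ => ?_
      rw [hEj]
      ring
    rw [h3, h2, h1] at hsum
    linarith
  have hR1 : |∑ j : Fin (m + 2) → Option (Fin 3 × Fin d), sgo n j *
        ∑ z : Fin 3 × Fin d → K, (WtG M0 n z - w) * hh k tv z * Φ (zt z j)| ≤ NJ * B := by
    calc |∑ j : Fin (m + 2) → Option (Fin 3 × Fin d), sgo n j *
        ∑ z : Fin 3 × Fin d → K, (WtG M0 n z - w) * hh k tv z * Φ (zt z j)|
        ≤ ∑ j : Fin (m + 2) → Option (Fin 3 × Fin d), |sgo n j *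
        ∑ z : Fin 3 × Fin d → K, (WtG M0 n z - w) * hh k tv z * Φ (zt z j)| :=
          abs_sum_le_sum_abs _ _
      _ ≤ ∑ j : Fin (m + 2) → Option (Fin 3 × Fin d), B := by
          refine sum_le_sum fun j _ => ?_
          rw [abs_mul]
          calc |sgo n j| * |∑ z : Fin 3 × Fin d → K,
                (WtG M0 n z - w) * hh k tv z * Φ (zt z j)|
              ≤ 1 * B := mul_le_mul (abs_sgo n j) (hD j) (abs_nonneg _) (by norm_num)
            _ = B := one_mul B
      _ = NJ * B := by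
          rw [sum_const, card_univ, nsmul_eq_mul]
  have hR2 : |∑ j ∈ univ \ Sset, sgo n j * Ej j| ≤
      NJ * (2 ^ (m + 2) * NQ (Fin 3 × Fin d) K * (|Φ t| / Λ)) := by
    have hpos : 0 ≤ 2 ^ (m + 2) * NQ (Fin 3 × Fin d) K * (|Φ t| / Λ) := by positivity
    calc |∑ j ∈ univ \ Sset, sgo n j * Ej j| ≤ ∑ j ∈ univ \ Sset, |sgo n j * Ej j| :=
          abs_sum_le_sum_abs _ _
      _ ≤ ∑ j ∈ univ \ Sset, 2 ^ (m + 2) * NQ (Fin 3 × Fin d) K * (|Φ t| / Λ) := by
          refine sum_le_sum fun j hj => ?_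
          rw [mem_sdiff] at hj
          exact hrest j hj.2
      _ = ((univ \ Sset).card : ℝ) * (2 ^ (m + 2) * NQ (Fin 3 × Fin d) K * (|Φ t| / Λ)) := by
          rw [sum_const, nsmul_eq_mul]
      _ ≤ _ := by
          apply mul_le_mul_of_nonneg_right _ hpos
          rw [hNJ]
          exact_mod_cast card_le_univ _
  have h3 : w * (NQ (Fin 3 × Fin d) K * |Φ t|) ≤ NJ * B +
      w * (NJ * (2 ^ (m + 2) * NQ (Fin 3 × Fin d) K * (|Φ t| / Λ))) := by
    calc w * (NQ (Fin 3 × Fin d) K * |Φ t|)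
        ≤ Sset.card * (w * (NQ (Fin 3 × Fin d) K * |Φ t|)) :=
          le_mul_of_one_le_left (by positivity) hone
      _ = |w * (Sset.card * (NQ (Fin 3 × Fin d) K * (c * Φ t)))| := by
          rw [abs_mul, abs_mul, abs_mul, abs_mul, hcabs, abs_of_pos hw, abs_of_pos hNQpos,
            Nat.abs_cast]
          ring
      _ ≤ |∑ j : Fin (m + 2) → Option (Fin 3 × Fin d), sgo n j *
        ∑ z : Fin 3 × Fin d → K, (WtG M0 n z - w) * hh k tv z * Φ (zt z j)| +
        |w * ∑ j ∈ univ \ Sset, sgo n j * Ej j| := by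
          rw [hfin]
          refine (abs_sub _ _).trans ?_
          rw [abs_neg]
      _ ≤ _ := by
          apply add_le_add hR1
          rw [abs_mul, abs_of_pos hw]
          exact mul_le_mul_of_nonneg_left hR2 hw.le
  have h4 : NJ * B = (C0 * (3 * ε + 2 * (((2 * (m + 2) : ℕ) : ℝ) ^ 2 / q))) *
      (w * (NQ (Fin 3 × Fin d) K * |Φ t|)) := by
    rw [hB, hC0]
    ring
  have h4' : w * (NJ * (2 ^ (m + 2) * NQ (Fin 3 × Fin d) K * (|Φ t| / Λ))) =
      1 / 4 * (w * (NQ (Fin 3 × Fin d) K * |Φ t|)) := by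
    rw [hΛ]
    have : NJ ≠ 0 := by linarith
    field_simp
  have h5 : C0 * (3 * ε + 2 * (((2 * (m + 2) : ℕ) : ℝ) ^ 2 / q)) ≤ 1 / 2 := by
    have h6 : C0 * (3 * ε) = 1 / 4 := by
      rw [hε]
      field_simp
      norm_num
    have h7 : (q2 : ℝ) ≤ q := by rw [hqdef]; exact_mod_cast (le_trans (le_max_right _ _) hK)
    have h8 : C0 * (2 * (((2 * (m + 2) : ℕ) : ℝ) ^ 2 / q)) ≤ 1 / 4 := by
      rw [← mul_div_assoc, ← mul_div_assoc, div_le_iff₀ (by linarith)]
      nlinarith
    linarith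
  have h9 : 0 < w * (NQ (Fin 3 × Fin d) K * |Φ t|) := by positivity
  rw [h4, h4'] at h3
  nlinarith

end Helper392PC
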