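import Pool.Agent.H39R2.Gon.B
import Pool.Agent.Helper392_PC.FTG2

/-!
# The relations of `k(x)` and the vanishing for given fixed factors
-/

set_option autoImplicit false

namespace Helper392PC

open Polynomial H39Gon H39Gon.TaskB

theorem map_lincombG {V : Type} [AddCommGroup V] {n : ℕ} {ι : Type} [Fintype ι] [DecidableEq ι]
    (P : MultilinearMap ℤ (fun _ : Fin n => V) ℝ) (g : Fin n → ι → ℤ) (x : Fin n → ι → V) :
    P (fun i => ∑ a, g i a • x i a) =
      ∑ r : Fin n → ι, (∏ i, (g i (r i) : ℝ)) * P (fun i => x i (r i)) := by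
  rw [MultilinearMap.map_sum]
  apply Finset.sum_congr rfl
  intro r _
  rw [MultilinearMap.map_smul_univ]
  simp

/-- integral coefficient -/
def c0oz {d : ℕ} (n : Fin 3 → ℕ) : Option (Fin 3 × Fin d) → ℤ
  | none => 1
  | some a => if a.2.val < n a.1 then c0z a.1 else 0

/-- integral coefficient -/
def c1oz {d : ℕ} (n : Fin 3 → ℕ) : Option (Fin 3 × Fin d) → ℤ
  | none => 1
  | some a => if a.2.val < n a.1 then c1z a.1 else 0

theorem c0oz_cast {d : ℕ} (n : Fin 3 → ℕ) (a : Option (Fin 3 × Fin d)) :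
    ((c0oz n a : ℤ) : ℝ) = c0o n a := by
  rcases a with _ | a
  · simp [c0oz, c0o]
  · simp only [c0oz, c0o]
    split_ifs
    · exact c0z_cast _
    · simp

theorem c1oz_cast {d : ℕ} (n : Fin 3 → ℕ) (a : Option (Fin 3 × Fin d)) :
    ((c1oz n a : ℤ) : ℝ) = c1o n a := by
  rcases a with _ | a
  · simp [c1oz, c1o]
  · simp only [c1oz, c1o]
    split_ifs
    · exact c1z_cast _
    · simp

theorem sum_RX {V : Type} [AddCommGroup V] {d : ℕ} (n : Fin 3 → ℕ) (g : Fin 3 × Fin d → V)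
    (Y : Fin 3) : ∑ i : Fin d, (if i.val < n Y then g (Y, i) else 0) = ∑ i ∈ RX n Y, g (Y, i) := by
  unfold RX
  rw [Finset.sum_filter]

theorem sum_c0oz {V : Type} [AddCommGroup V] {d : ℕ} (n : Fin 3 → ℕ) (x : V)
    (g : Fin 3 × Fin d → V) :
    ∑ s : Option (Fin 3 × Fin d), c0oz n s • (s.elim x g) =
      x + (∑ i ∈ RX n 1, g (1, i) - ∑ i ∈ RX n 2, g (2, i)) := by
  rw [Fintype.sum_option]
  simp only [c0oz, Option.elim_none, Option.elim_some, one_smul]
  congr 1
  rw [Fintype.sum_prod_type, Fin.sum_univ_three, ← sum_RX, ← sum_RX]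
  simp only [c0z, ite_smul, zero_smul]
  simp [Finset.sum_ite, sub_eq_add_neg]

theorem sum_c1oz {V : Type} [AddCommGroup V] {d : ℕ} (n : Fin 3 → ℕ) (x : V)
    (g : Fin 3 × Fin d → V) :
    ∑ s : Option (Fin 3 × Fin d), c1oz n s • (s.elim x g) =
      x + (∑ i ∈ RX n 0, g (0, i) - ∑ i ∈ RX n 2, g (2, i)) := by
  rw [Fintype.sum_option]
  simp only [c1oz, Option.elim_none, Option.elim_some, one_smul]
  congr 1
  rw [Fintype.sum_prod_type, Fin.sum_univ_three, ← sum_RX, ← sum_RX]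
  simp only [c1z, ite_smul, zero_smul]
  simp [Finset.sum_ite, sub_eq_add_neg]

section abs

variable {V : Type} [AddCommGroup V]

theorem abs_torsG (q : ℕ) (d1 d2 n1 n2 : ℕ) (d : ℕ) (h1 : d1 + n1 = d) (h2 : d2 + n2 = d)
    (t c1 c2 G1 G2 s1 s2 b : V) (h : Tors (t + c1 - c2)) :
    Tors (q • (t + (c1 + (G1 + s1)) - (c2 + (G2 + s2))) -
      ((q • (G1 - G2) - ((d1 : ℤ) - d2) • b) + ((q • s1 - n1 • b) - (q • s2 - n2 • b)))) := by
  have := h.nsmul q
  convert this using 1
  have e1 : (n1 : ℤ) = d - d1 := by omega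
  have e2 : (n2 : ℤ) = d - d2 := by omega
  rw [← natCast_zsmul b n1, ← natCast_zsmul b n2, e1, e2]
  simp only [smul_add, smul_sub, sub_smul]
  abel

theorem hgen_abs {K : Type} [Fintype K] (x : K → V) (g : K → ℤ) (al dd : ℤ) (P : V)
    (h0 : al * dd + ∑ a, g a = 0) :
    (Fintype.card K) • (al • P + ∑ a, g a • x a) =
      al • ((Fintype.card K) • P - dd • ∑ b, x b) + ∑ a, g a • mV x a := by
  have h1 : ∑ a : K, g a • mV x a =
      (Fintype.card K) • (∑ a, g a • x a) - (∑ a, g a) • ∑ b : K, x b := by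
    have h2 : ∀ a : K, g a • mV x a = (Fintype.card K) • (g a • x a) - g a • ∑ b : K, x b := by
      intro a
      unfold mV
      rw [smul_sub, smul_comm]
    simp only [h2]
    rw [Finset.sum_sub_distrib, ← Finset.smul_sum, ← Finset.sum_smul]
  rw [h1]
  have h4 : ∑ a, g a = - (al * dd) := by linarith
  rw [h4, neg_smul, sub_neg_eq_add, mul_smul, smul_sub al, smul_comm al (Fintype.card K), smul_add]
  abel

end abs

section core

variable {k : Type} [Field k]

theorem sum_mV_RX {V K : Type} [AddCommGroup V] [Fintype K] (x : K → V) {d : ℕ} (s : Finset (Fin d))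
    (z : Fin d → K) :
    ∑ i ∈ s, mV x (z i) = (Fintype.card K) • (∑ i ∈ s, x (z i)) - s.card • ∑ b : K, x b := by
  unfold mV
  rw [Finset.sum_sub_distrib, ← Finset.smul_sum, Finset.sum_const]

/-- class of a polynomial -/
noncomputable def pc (F : k[X]) : UV (RatFunc k) := cl (algebraMap k[X] (RatFunc k) F)

theorem alg0 {F : k[X]} (hF : F ≠ 0) : algebraMap k[X] (RatFunc k) F ≠ 0 := by
  rw [Ne, map_eq_zero_iff _ (RatFunc.algebraMap_injective k)]
  exact hF

/-- the fixed entries -/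
noncomputable def fx {K : Type} [Field K] [Fintype K] (ι : K →+* k) (M0 : Fin 3 → K[X])
    (Y : Fin 3) : UV (RatFunc k) :=
  (Fintype.card K) • (pc ((M0 Y).map ι) - pc ((M0 2).map ι)) -
    (((M0 Y).natDegree : ℤ) - (M0 2).natDegree) • ∑ b : K, cl (xx (ι b))

/-- the entries -/
noncomputable def vl {m : ℕ} {K : Type} [Field K] [Fintype K] (ι : K →+* k) (M0 : Fin 3 → K[X])
    (i : Fin (m + 2)) (o : Option K) : UV (RatFunc k) :=
  o.elim (if i = 0 then fx ι M0 1 else fx ι M0 0) (fun a => mm ι a)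

theorem tors_auxG {K : Type} [Field K] [Fintype K] (hk : ConstTors k) (ι : K →+* k) {d : ℕ}
    (M0 : Fin 3 → K[X]) (hM0 : ∀ Y, (M0 Y).Monic) (n : Fin 3 → ℕ)
    (hdn : ∀ Y, (M0 Y).natDegree + n Y = d)
    (z : Fin 3 × Fin d → K) (l : Fin 3 → Kˣ) (Y : Fin 3) :
    Tors ((Fintype.card K) • cl (-(RatFunc.C (ι (l Y)) *
        (algebraMap k[X] (RatFunc k) ((M0 Y).map ι) * ∏ i ∈ RX n Y, xx (ι (z (Y, i))))) /
      (RatFunc.C (ι (l 2)) *
        (algebraMap k[X] (RatFunc k) ((M0 2).map ι) * ∏ i ∈ RX n 2, xx (ι (z (2, i)))))) -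
      (fx ι M0 Y + (∑ i ∈ RX n Y, mm ι (z (Y, i)) - ∑ i ∈ RX n 2, mm ι (z (2, i))))) := by
  have hC : ∀ X, (ι (l X : K)) ≠ 0 := fun X => by
    rw [Ne, map_eq_zero]; exact Units.ne_zero _
  have hC' : ∀ X, RatFunc.C (ι (l X : K)) ≠ 0 := fun X => by
    rw [Ne, map_eq_zero]; exact hC X
  have hG : ∀ X, algebraMap k[X] (RatFunc k) ((M0 X).map ι) ≠ 0 := fun X =>
    alg0 ((hM0 X).map ι).ne_zero
  have hp : ∀ X, ∏ i ∈ RX n X, xx (ι (z (X, i))) ≠ 0 := fun X =>
    Finset.prod_ne_zero_iff.2 (fun i _ => xx_ne_zero _)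
  have hGp : ∀ X, algebraMap k[X] (RatFunc k) ((M0 X).map ι) * ∏ i ∈ RX n X, xx (ι (z (X, i))) ≠ 0 :=
    fun X => mul_ne_zero (hG X) (hp X)
  have hA : ∀ X, RatFunc.C (ι (l X : K)) * (algebraMap k[X] (RatFunc k) ((M0 X).map ι) *
      ∏ i ∈ RX n X, xx (ι (z (X, i)))) ≠ 0 := fun X => mul_ne_zero (hC' X) (hGp X)
  have h1 : ∀ X, cl (RatFunc.C (ι (l X : K)) * (algebraMap k[X] (RatFunc k) ((M0 X).map ι) *
      ∏ i ∈ RX n X, xx (ι (z (X, i))))) =
      cl (RatFunc.C (ι (l X : K))) + (pc ((M0 X).map ι) + ∑ i ∈ RX n X, cl (xx (ι (z (X, i))))) :=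
    fun X => by
    rw [cl_mul (hC' X) (hGp X), cl_mul (hG X) (hp X), cl_prod _ _ (fun i _ => xx_ne_zero _)]
    rfl
  have h2 : cl (-(RatFunc.C (ι (l Y)) *
        (algebraMap k[X] (RatFunc k) ((M0 Y).map ι) * ∏ i ∈ RX n Y, xx (ι (z (Y, i))))) /
      (RatFunc.C (ι (l 2)) *
        (algebraMap k[X] (RatFunc k) ((M0 2).map ι) * ∏ i ∈ RX n 2, xx (ι (z (2, i)))))) =
      cl (-1 : RatFunc k) + (cl (RatFunc.C (ι (l Y : K))) +
        (pc ((M0 Y).map ι) + ∑ i ∈ RX n Y, cl (xx (ι (z (Y, i))))))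
       - (cl (RatFunc.C (ι (l 2 : K))) +
        (pc ((M0 2).map ι) + ∑ i ∈ RX n 2, cl (xx (ι (z (2, i)))))) := by
    rw [neg_div, ← neg_one_mul, cl_mul (by simp) (div_ne_zero (hA Y) (hA 2)),
      cl_div (hA Y) (hA 2), h1, h1]
    abel
  have hcard : ∀ X, (RX (d := d) n X).card = n X := fun X => RX_card n X (by
    have := hdn X; omega)
  have h3 : ∀ X, ∑ i ∈ RX n X, mm ι (z (X, i)) =
      (Fintype.card K) • (∑ i ∈ RX n X, cl (xx (ι (z (X, i))))) -
        n X • ∑ b : K, cl (xx (ι b)) := fun X => by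
    have := sum_mV_RX (fun b => cl (xx (ι b))) (RX n X) (fun i => z (X, i))
    rw [hcard] at this
    exact this
  rw [h2, h3, h3]
  unfold fx
  exact abs_torsG _ _ _ _ _ d (hdn Y) (hdn 2) _ _ _ _ _ _ _ _
    ((tors_neg_one.add (tors_C hk _ (hC Y))).sub (tors_C hk _ (hC 2)))

theorem coreG {m d : ℕ} (hk : ConstTors k) (K : Type) [Field K] [Fintype K] [DecidableEq K]
    (ι : K →+* k) (M0 : Fin 3 → K[X]) (hM0 : ∀ Y, (M0 Y).Monic) (n : Fin 3 → ℕ)
    (hdn : ∀ Y, (M0 Y).natDegree + n Y = d)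
    (hFT : ∀ Φ : (Fin (m + 2) → Option K) → ℝ,
      (∀ (t : Fin (m + 2) → Option K) (i : Fin (m + 2)),
        ∑ x : K, Φ (Function.update t i (some x)) = 0) →
      (∀ (σ : Equiv.Perm (Fin (m + 2))) (t : Fin (m + 2) → Option K), σ 0 = 0 →
        Φ (t ∘ σ) = Φ t) →
      (∀ z : Fin 3 × Fin d → K,
        (∃ l : Fin 3 → Kˣ, ∑ Y : Fin 3, C (l Y : K) *
          (M0 Y * ∏ i ∈ RX n Y, (Polynomial.X - C (z (Y, i)))) = 0) →
        ∑ j : Fin (m + 2) → Option (Fin 3 × Fin d), sgo n j * Φ (zt z j) = 0) →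
      ∀ t, Φ t = 0)
    (Q : MultilinearMap ℤ (fun _ : Fin (m + 1) => UV (RatFunc k)) (UV (RatFunc k) →ₗ[ℤ] ℚ))
    (hQ : ∀ f : RatFunc k, f ≠ 0 → f ≠ 1 → Q (fun _ => cl f) (cl (1 - f)) = 0)
    (t : Fin (m + 2) → Option K) : PS Q (fun i => vl ι M0 i (t i)) = 0 := by
  refine hFT (fun t => PS Q (fun i => vl ι M0 i (t i))) ?_ ?_ ?_ t
  · intro t i
    have h1 : ∀ x : K, (fun j => vl ι M0 j (Function.update t i (some x) j)) =
        Function.update (fun j => vl ι M0 j (t j)) i (mm ι x) := by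
      intro x
      funext j
      by_cases hj : j = i
      · subst hj; simp [vl]
      · simp [Function.update_of_ne hj]
    simp only [h1]
    rw [← MultilinearMap.map_update_sum, sum_mm, MultilinearMap.map_update_zero]
  · intro σ t hσ
    have h1 : (fun i => vl ι M0 i ((t ∘ σ) i)) = (fun i => vl ι M0 i (t i)) ∘ σ := by
      funext i
      simp only [Function.comp_apply, vl]
      have : (i = 0) ↔ (σ i = 0) := by
        constructor
        · rintro rfl; exact hσ
        · intro h; exact σ.injective (by rw [h, hσ])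
      simp only [this]
    beta_reduce
    rw [h1]
    exact PS_symm Q _ σ hσ
  · rintro z ⟨l, hl⟩
    set A : Fin 3 → RatFunc k := fun X => RatFunc.C (ι (l X : K)) *
      (algebraMap k[X] (RatFunc k) ((M0 X).map ι) * ∏ i ∈ RX n X, xx (ι (z (X, i)))) with hA
    have hA0 : ∀ X, A X ≠ 0 := fun X => by
      refine mul_ne_zero ?_ (mul_ne_zero (alg0 ((hM0 X).map ι).ne_zero)
        (Finset.prod_ne_zero_iff.2 (fun i _ => xx_ne_zero _)))
      rw [Ne, map_eq_zero, map_eq_zero]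
      exact Units.ne_zero _
    have hsum : A 0 + A 1 + A 2 = 0 := by
      have h1 := congrArg ((algebraMap k[X] (RatFunc k)).comp (mapRingHom ι)) hl
      rw [map_sum, map_zero, Fin.sum_univ_three] at h1
      simp only [map_mul, map_prod, RingHom.comp_apply, coe_mapRingHom, Polynomial.map_sub,
        Polynomial.map_X, Polynomial.map_C, ← xx_eq, RatFunc.algebraMap_C] at h1
      exact h1
    set f : RatFunc k := -A 0 / A 2 with hf
    have hf0 : f ≠ 0 := div_ne_zero (neg_ne_zero.2 (hA0 0)) (hA0 2)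
    have hf1 : 1 - f = - A 1 / A 2 := by
      rw [hf, eq_div_iff (hA0 2), sub_mul, div_mul_cancel₀ _ (hA0 2)]
      linear_combination hsum
    have hf2 : f ≠ 1 := by
      intro h
      rw [h, sub_self] at hf1
      exact (div_ne_zero (neg_ne_zero.2 (hA0 1)) (hA0 2)) hf1.symm
    have hq := hQ f hf0 hf2
    have e1 : PS Q (Fin.cons ((Fintype.card K) • cl (1 - f))
        (fun _ => (Fintype.card K) • cl f) : Fin (m + 2) → UV (RatFunc k)) = 0 := by
      obtain ⟨c, -, hc⟩ := PS_diag Q ((Fintype.card K) • cl f) ((Fintype.card K) • cl (1 - f))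
      rw [hc]
      have h2 : Q (fun _ => (Fintype.card K) • cl f) =
          (∏ _i : Fin (m + 1), (Fintype.card K : ℤ)) • Q (fun _ => cl f) := by
        rw [← MultilinearMap.map_smul_univ]
        simp
      rw [h2, LinearMap.smul_apply, map_nsmul, hq]
      simp
    set G : Fin (m + 2) → (Option (Fin 3 × Fin d) → ℤ) :=
      Fin.cons (fun s => c0oz n s) (fun _ s => c1oz n s) with hG
    have hvl : ∀ (i : Fin (m + 2)) (s : Option (Fin 3 × Fin d)),
        vl ι M0 i (s.map z) = s.elim (if i = 0 then fx ι M0 1 else fx ι M0 0)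
          (fun a => mm ι (z a)) := by
      intro i s
      rcases s with _ | a <;> rfl
    have e2 : PS Q (Fin.cons ((Fintype.card K) • cl (1 - f))
        (fun _ => (Fintype.card K) • cl f) : Fin (m + 2) → UV (RatFunc k)) =
        PS Q (fun i => ∑ s, G i s • vl ι M0 i (s.map z)) := by
      apply map_eq_of_tors
      intro i
      induction i using Fin.cases with
      | zero =>
        simp only [Fin.cons_zero, hG, hvl, if_true]
        rw [sum_c0oz, hf1]
        exact tors_auxG hk ι M0 hM0 n hdn z l 1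
      | succ j =>
        simp only [Fin.cons_succ, hG, hvl, Fin.succ_ne_zero, if_false]
        rw [sum_c1oz, hf]
        exact tors_auxG hk ι M0 hM0 n hdn z l 0
    rw [e2, map_lincombG] at e1
    rw [← e1]
    apply Finset.sum_congr rfl
    intro r _
    rw [Fin.prod_univ_succ (fun i => (G i (r i) : ℝ))]
    simp only [hG, Fin.cons_zero, Fin.cons_succ, c0oz_cast, c1oz_cast]
    rfl

theorem deg_zeroG {m : ℕ} (K : Type) [Field K] [Fintype K] [DecidableEq K]
    (ι : K →+* k) (M0 : Fin 3 → K[X])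
    (Q : MultilinearMap ℤ (fun _ : Fin (m + 1) => UV (RatFunc k)) (UV (RatFunc k) →ₗ[ℤ] ℚ))
    (hcore : ∀ t : Fin (m + 2) → Option K, PS Q (fun i => vl ι M0 i (t i)) = 0)
    (g h : k →₀ ℤ) (hg : ∀ a ∈ g.support, ∃ b, ι b = a) (hh : ∀ a ∈ h.support, ∃ b, ι b = a)
    (be : ℤ)
    (hg0 : ((M0 0).natDegree : ℤ) - (M0 2).natDegree + dg g = 0)
    (hh0 : be * (((M0 1).natDegree : ℤ) - (M0 2).natDegree) + dg h = 0) :
    Q (fun _ => pc ((M0 0).map ι) - pc ((M0 2).map ι) + D g)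
      (be • (pc ((M0 1).map ι) - pc ((M0 2).map ι)) + D h) = 0 := by
  have hgen : ∀ (al : ℤ) (Y : Fin 3) (g : k →₀ ℤ), (∀ a ∈ g.support, ∃ b, ι b = a) →
      al * (((M0 Y).natDegree : ℤ) - (M0 2).natDegree) + dg g = 0 →
      (Fintype.card K) • (al • (pc ((M0 Y).map ι) - pc ((M0 2).map ι)) + D g) =
      al • fx ι M0 Y + ∑ a : K, g (ι a) • mm ι a := by
    intro al Y g hg hg0
    rw [D_eq ι g hg]
    have h3 : dg g = ∑ a : K, g (ι a) := sum_eq ι g hg
    rw [h3] at hg0
    exact hgen_abs (fun b => cl (xx (ι b))) (fun a => g (ι a)) al _ _ hg0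
  have e1 : PS Q (Fin.cons ((Fintype.card K) • (be • (pc ((M0 1).map ι) - pc ((M0 2).map ι)) + D h))
      (fun _ => (Fintype.card K) • (pc ((M0 0).map ι) - pc ((M0 2).map ι) + D g)) :
        Fin (m + 2) → UV (RatFunc k)) = 0 := by
    set G : Fin (m + 2) → (Option K → ℤ) :=
      Fin.cons (fun a => a.elim be (fun a => h (ι a))) (fun _ a => a.elim 1 (fun a => g (ι a)))
      with hG
    have h1 : (Fin.cons ((Fintype.card K) • (be • (pc ((M0 1).map ι) - pc ((M0 2).map ι)) + D h))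
      (fun _ => (Fintype.card K) • (pc ((M0 0).map ι) - pc ((M0 2).map ι) + D g)) :
        Fin (m + 2) → UV (RatFunc k)) =
        (fun i => ∑ a, G i a • vl ι M0 i a) := by
      funext i
      induction i using Fin.cases with
      | zero =>
        simp only [Fin.cons_zero, hG]
        rw [hgen be 1 h hh hh0, Fintype.sum_option]
        rfl
      | succ j =>
        simp only [Fin.cons_succ, hG]
        have := hgen 1 0 g hg (by linarith)
        rw [one_smul] at this
        rw [this, Fintype.sum_option]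
        simp only [vl, Fin.succ_ne_zero, if_false]
        rfl
    rw [h1, map_lincombG]
    apply Finset.sum_eq_zero
    intro r _
    rw [hcore r, mul_zero]
  obtain ⟨c, hc0, hc⟩ := PS_diag Q
    ((Fintype.card K) • (pc ((M0 0).map ι) - pc ((M0 2).map ι) + D g))
    ((Fintype.card K) • (be • (pc ((M0 1).map ι) - pc ((M0 2).map ι)) + D h))
  rw [hc] at e1
  set s := pc ((M0 0).map ι) - pc ((M0 2).map ι) + D g
  set v := be • (pc ((M0 1).map ι) - pc ((M0 2).map ι)) + D h
  have h2 : Q (fun _ => (Fintype.card K) • s) =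
      (∏ _i : Fin (m + 1), (Fintype.card K : ℤ)) • Q (fun _ => s) := by
    rw [← MultilinearMap.map_smul_univ]
    simp
  rw [h2, LinearMap.smul_apply, map_nsmul] at e1
  have h3 : (Fintype.card K : ℝ) ≠ 0 := by
    have := Fintype.card_pos (α := K)
    positivity
  have h4 := (mul_eq_zero.1 e1).resolve_left hc0
  have h5 : (∏ _i : Fin (m + 1), (Fintype.card K : ℤ)) • ((Fintype.card K) • (Q (fun _ => s) v))
    = 0 := by exact_mod_cast h4
  have h6 : (Fintype.card K : ℤ) ≠ 0 := by exact_mod_cast h3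
  rw [smul_eq_zero, smul_eq_zero] at h5
  rcases h5 with h5 | h5 | h5
  · exact absurd h5 (Finset.prod_ne_zero_iff.2 (fun _ _ => h6))
  · exact absurd h5 (by exact_mod_cast h6)
  · exact h5

end core

end Helper392PC
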