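import Pool.Agent.Helper392_PC.Van

/-!
# `SpanDual` for `k(x)`, `k` an infinite union of finite fields
-/

set_option autoImplicit false

namespace Helper392PC

open Polynomial H39Gon H39Gon.TaskB

section poly

/-- a polynomial argument -/
theorem poly_zero {V : Type} [AddCommGroup V] {N : ℕ} (M : MultilinearMap ℤ (fun _ : Fin N => V) ℚ)
    (s u : V) (t0 : ℕ) (h : ∀ t : ℕ, t0 ≤ t → M (fun _ => (t : ℤ) • u + s) = 0) :
    M (fun _ => s) = 0 := by
  classical
  let p : ℚ[X] := ∑ T : Finset (Fin N),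
    C (M (T.piecewise (fun _ => u) (fun _ => s))) * X ^ T.card
  have hp0 : ∀ t : ℕ, p.eval (t : ℚ) = M (fun _ => (t : ℤ) • u + s) := by
    intro t
    have h2 : (fun _ : Fin N => (t : ℤ) • u + s) = (fun _ => (t : ℤ) • u) + (fun _ => s) := rfl
    rw [h2, M.map_add_univ, Polynomial.eval_finsetSum]
    apply Finset.sum_congr rfl
    intro T _
    rw [eval_mul, eval_C, eval_pow, eval_X]
    have h3 : T.piecewise (fun _ => (t : ℤ) • u) (fun _ => s) =
        T.piecewise (fun i => (t : ℤ) • (T.piecewise (fun _ => u) (fun _ => s)) i)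
          (T.piecewise (fun _ => u) (fun _ => s)) := by
      funext i
      by_cases hi : i ∈ T <;> simp [hi]
    rw [h3, M.map_piecewise_smul]
    simp [mul_comm]
  have hp : p = 0 := by
    apply Polynomial.eq_zero_of_infinite_isRoot
    have hinf : (Set.range (fun t : ℕ => ((t + t0 : ℕ) : ℚ))).Infinite := by
      apply Set.infinite_range_of_injective
      intro a b hab
      have h1 : ((a + t0 : ℕ) : ℚ) = ((b + t0 : ℕ) : ℚ) := hab
      have h2 : (a + t0 : ℕ) = (b + t0 : ℕ) := by exact_mod_cast h1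
      omega
    apply hinf.mono
    rintro _ ⟨t, rfl⟩
    change p.eval _ = 0
    rw [hp0]
    exact h _ (by omega)
  have h0 := hp0 0
  rw [hp] at h0
  simp at h0
  rw [h0]

end poly

variable {k : Type} [Field k]

theorem pc_mul {F G : k[X]} (hF : F ≠ 0) (hG : G ≠ 0) : pc (F * G) = pc F + pc G := by
  unfold pc
  rw [map_mul, cl_mul (alg0 hF) (alg0 hG)]

theorem pc_one : pc (1 : k[X]) = 0 := by
  unfold pc
  rw [map_one, TaskB.cl_one]

theorem pc_pow {F : k[X]} (hF : F ≠ 0) (n : ℕ) : pc (F ^ n) = n • pc F := by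
  unfold pc
  rw [map_pow, cl_pow (alg0 hF)]

theorem pc_lin (a : k) : pc (X - C a) = cl (xx a) := by
  unfold pc
  rw [← xx_eq]

theorem tors_pcC (hk : ConstTors k) (c : k) (hc : c ≠ 0) : Tors (pc (C c)) := by
  unfold pc
  rw [RatFunc.algebraMap_C]
  exact tors_C hk c hc

theorem pc_roots (s : Multiset k) : ∃ g : k →₀ ℤ,
    pc ((s.map (fun a => X - C a)).prod) = D g ∧ dg g = (Multiset.card s : ℤ) ∧
    (s.map (fun a => X - C a)).prod.Monic := by
  induction s using Multiset.induction with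
  | empty => exact ⟨0, by simp [pc_one, D_zero], by simp [dg], by simp [monic_one]⟩
  | cons a s ih =>
    obtain ⟨g, h1, h2, h3⟩ := ih
    refine ⟨Finsupp.single a 1 + g, ?_, ?_, ?_⟩
    · rw [Multiset.map_cons, Multiset.prod_cons, pc_mul (X_sub_C_ne_zero a) h3.ne_zero, h1,
        D_add, D_single, pc_lin]
    · rw [dg_add, dg_single, h2, Multiset.card_cons]
      push_cast
      ring
    · rw [Multiset.map_cons, Multiset.prod_cons]
      exact (monic_X_sub_C a).mul h3

section abs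

variable {V : Type} [AddCommGroup V]

theorem abs_dec (j : ℕ) (f c g p f1 d : V) (h : f = c + (d + (j • p + f1))) (hc : Tors c) :
    Tors (f - (j • p + f1 + d)) := by
  have : f - (j • p + f1 + d) = c := by rw [h]; abel
  rw [this]
  exact hc

theorem abs_sN (j1 j2 N b n1 : ℕ) (hb : N + j2 = b + j1) (hn1 : n1 + 1 = N)
    (F G P F1 G1 D1 D2 Dw : V)
    (h1 : Tors (F - (j1 • P + F1 + D1))) (h2 : Tors (G - (j2 • P + G1 + D2))) :
    Tors (((N : ℤ) • (G1 - P + Dw) + (F - G)) -
      ((F1 + n1 • G1) - b • P + (D1 - D2 + (N : ℤ) • Dw))) := by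
  have h3 := h1.sub h2
  convert h3 using 1
  have e1 : (n1 : ℤ) = N - 1 := by omega
  have e2 : (b : ℤ) = N + j2 - j1 := by omega
  rw [← natCast_zsmul P b, ← natCast_zsmul P j1, ← natCast_zsmul P j2, ← natCast_zsmul G1 n1, e1, e2]
  simp only [smul_add, smul_sub, sub_smul, add_smul, one_smul]
  abel

theorem abs_vv (b : ℕ) (P D1 : V) :
    (-1 : ℤ) • (0 - b • P) + (b : ℤ) • D1 = (b : ℤ) • (P + D1) := by
  rw [zero_sub, smul_neg, neg_smul, one_smul, neg_neg, smul_add, natCast_zsmul, natCast_zsmul]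

end abs

theorem decompP (hk : ConstTors k) (P : k[X]) (hP : P.Monic) (hP' : P = 1 ∨ Irreducible P)
    (F : k[X]) (hF : F ≠ 0) : ∃ (j : ℕ) (F1 : k[X]) (g : k →₀ ℤ), F1.Monic ∧
      (∀ a, F1.eval a ≠ 0) ∧ IsCoprime F1 P ∧ Tors (pc F - (j • pc P + pc F1 + D g)) ∧
      (F.natDegree : ℤ) = j * P.natDegree + F1.natDegree + dg g := by
  obtain ⟨G, hG1, hG2, hG3⟩ := exists_prod_multiset_X_sub_C_mul F
  have hG0 : G ≠ 0 := by
    rintro rfl
    rw [mul_zero] at hG1
    exact hF hG1.symm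
  obtain ⟨g, hg1, hg2, hg3⟩ := pc_roots F.roots
  have hlc : G.leadingCoeff ≠ 0 := leadingCoeff_ne_zero.2 hG0
  set G1 := C (G.leadingCoeff)⁻¹ * G with hG1d
  have hG1m : G1.Monic := by
    unfold Polynomial.Monic
    rw [hG1d, leadingCoeff_mul, leadingCoeff_C, inv_mul_cancel₀ hlc]
  have hGG : G = C G.leadingCoeff * G1 := by
    rw [hG1d, ← mul_assoc, ← C_mul, mul_inv_cancel₀ hlc, C_1, one_mul]
  have hG1deg : G1.natDegree = G.natDegree := by
    conv_rhs => rw [hGG]
    rw [natDegree_C_mul hlc]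
  have hG1r : ∀ a, G1.eval a ≠ 0 := by
    intro a ha
    have h1 : a ∈ G.roots := by
      rw [mem_roots hG0, IsRoot.def, hGG, eval_mul, ha, mul_zero]
    rw [hG3] at h1
    exact Multiset.notMem_zero _ h1
  have hfac : ∃ (j : ℕ) (F1 : k[X]), G1 = P ^ j * F1 ∧ IsCoprime F1 P := by
    rcases hP' with h1 | h1
    · exact ⟨0, G1, by simp, by rw [h1]; exact isCoprime_one_right⟩
    · obtain ⟨j, F1, h2, h3⟩ := WfDvdMonoid.max_power_factor' hG1m.ne_zero h1.not_isUnit
      exact ⟨j, F1, h3, ((h1.coprime_iff_not_dvd).2 h2).symm⟩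
  obtain ⟨j, F1, hj, hcop⟩ := hfac
  have hF1m : F1.Monic := by
    apply (hP.pow j).of_mul_monic_left
    rw [← hj]
    exact hG1m
  refine ⟨j, F1, g, hF1m, ?_, hcop, ?_, ?_⟩
  · intro a ha
    apply hG1r a
    rw [hj, eval_mul, ha, mul_zero]
  · have e : pc F = pc (C G.leadingCoeff) + (D g + (j • pc P + pc F1)) := by
      conv_lhs => rw [← hG1, hGG, hj]
      rw [pc_mul hg3.ne_zero (mul_ne_zero (C_ne_zero.2 hlc) (mul_ne_zero (hP.pow j).ne_zero
        hF1m.ne_zero)), pc_mul (C_ne_zero.2 hlc) (mul_ne_zero (hP.pow j).ne_zero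
        hF1m.ne_zero), pc_mul (hP.pow j).ne_zero hF1m.ne_zero, pc_pow hP.ne_zero, hg1]
      abel
    exact abs_dec j _ _ (D g) _ _ _ e (tors_pcC hk _ hlc)
  · rw [← hG2]
    have h1 : G.natDegree = j * P.natDegree + F1.natDegree := by
      rw [← hG1deg, hj, (hP.pow j).natDegree_mul hF1m, hP.natDegree_pow]
    push_cast
    rw [h1, hg2]
    push_cast
    ring

section main

variable [Infinite k] (hfin : FinSub k) {m : ℕ}
    (Q : MultilinearMap ℤ (fun _ : Fin (m + 1) => UV (RatFunc k)) (UV (RatFunc k) →ₗ[ℤ] ℚ))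
    (hQ : ∀ f : RatFunc k, f ≠ 0 → f ≠ 1 → Q (fun _ => cl f) (cl (1 - f)) = 0)

include hfin hQ in
theorem mainP (P : k[X]) (hP : P.Monic) (hP' : P = 1 ∨ Irreducible P)
    (hPr : ∀ a, P.eval a ≠ 0) (F G : k[X]) (hF : F ≠ 0) (hG : G ≠ 0)
    (hFG : F.natDegree = G.natDegree) (h1 : k →₀ ℤ) (hh1 : dg h1 = -(P.natDegree : ℤ)) :
    Q (fun _ => pc F - pc G) (pc P + D h1) = 0 := by
  have hk := constTors_of_finSub hfin
  obtain ⟨j1, F1, g1, hF1m, hF1r, hF1c, hF1t, hF1d⟩ := decompP hk P hP hP' F hF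
  obtain ⟨j2, G1, g2, hG1m, hG1r, hG1c, hG1t, hG1d⟩ := decompP hk P hP hP' G hG
  set gw : k →₀ ℤ := Finsupp.single 0 ((P.natDegree : ℤ) - G1.natDegree) with hgw
  let Mv : MultilinearMap ℤ (fun _ : Fin (m + 1) => UV (RatFunc k)) ℚ :=
    (LinearMap.applyₗ (R := ℤ) (pc P + D h1)).compMultilinearMap Q
  have hMv : ∀ x, Mv x = Q x (pc P + D h1) := fun x => rfl
  have hgoal := poly_zero Mv (pc F - pc G) (pc G1 - pc P + D gw) (j1 + 1) (by
    intro N hN
    rw [hMv]
    obtain ⟨b, hb⟩ : ∃ b, N + j2 = b + j1 := ⟨N + j2 - j1, by omega⟩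
    obtain ⟨n1, hn1⟩ : ∃ n1, n1 + 1 = N := ⟨N - 1, by omega⟩
    have hb1 : 1 ≤ b := by omega
    set A0 := F1 * G1 ^ n1 with hA0
    set C0 := P ^ b with hC0
    have hA0m : A0.Monic := hF1m.mul (hG1m.pow n1)
    have hC0m : C0.Monic := hP.pow b
    have hAC : IsCoprime A0 C0 := by
      apply IsCoprime.mul_left
      · exact hF1c.pow_right
      · exact (hG1c.pow_left).pow_right
    have hA0r : ∀ a, A0.eval a ≠ 0 := by
      intro a
      rw [hA0, eval_mul, eval_pow]
      exact mul_ne_zero (hF1r a) (pow_ne_zero _ (hG1r a))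
    have hC0r : ∀ a, C0.eval a ≠ 0 := by
      intro a
      rw [hC0, eval_pow]
      exact pow_ne_zero _ (hPr a)
    have hA0d : (A0.natDegree : ℤ) = F1.natDegree + n1 * G1.natDegree := by
      rw [hA0, hF1m.natDegree_mul (hG1m.pow n1), hG1m.natDegree_pow]
      push_cast
      ring
    have hC0d : (C0.natDegree : ℤ) = b * P.natDegree := by
      rw [hC0, hP.natDegree_pow]
      push_cast
      ring
    set g : k →₀ ℤ := (g1 + (-1 : ℤ) • g2) + (N : ℤ) • gw with hg
    have hgd : dg g = dg g1 - dg g2 + N * ((P.natDegree : ℤ) - G1.natDegree) := by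
      rw [hg, dg_add, dg_add, dg_zsmul, dg_zsmul, hgw, dg_single]
      ring
    have hDg : D g = D g1 - D g2 + (N : ℤ) • D gw := by
      rw [hg, D_add, D_add, D_zsmul, D_zsmul]
      simp [sub_eq_add_neg]
    have hv := vanish hfin Q hQ A0 C0 hA0m hC0m hAC hA0r hC0r g ((b : ℤ) • h1) (-1) (by
        rw [hA0d, hC0d, hgd]
        have e1 : (n1 : ℤ) = N - 1 := by omega
        have e2 : (b : ℤ) = N + j2 - j1 := by omega
        have e3 : (F.natDegree : ℤ) = G.natDegree := by exact_mod_cast hFG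
        rw [e1, e2]
        rw [hF1d, hG1d] at e3
        linarith) (by
        rw [hC0d, dg_zsmul, hh1]
        ring)
    have hvv : (-1 : ℤ) • (pc 1 - pc C0) + D ((b : ℤ) • h1) = (b : ℤ) • (pc P + D h1) := by
      rw [pc_one, hC0, pc_pow hP.ne_zero, D_zsmul]
      exact abs_vv b _ _
    rw [hvv, map_zsmul] at hv
    have hbz : (b : ℤ) ≠ 0 := by omega
    have hv2 := (smul_eq_zero.1 hv).resolve_left hbz
    rw [← hv2]
    apply Q_eq_of_tors
    · have := abs_sN j1 j2 N b n1 hb hn1 (pc F) (pc G) (pc P) (pc F1) (pc G1) (D g1) (D g2) (D gw)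
        hF1t hG1t
      rw [hA0, pc_mul hF1m.ne_zero (hG1m.pow n1).ne_zero, pc_pow hG1m.ne_zero, hC0,
        pc_pow hP.ne_zero, hDg]
      exact this
    · rw [sub_self]
      exact Tors.zero)
  exact hgoal

include hfin hQ in
theorem mainV (F G : k[X]) (hF : F ≠ 0) (hG : G ≠ 0)
    (hFG : F.natDegree = G.natDegree) (F' : k[X]) :
    F' ≠ 0 → ∀ h1 : k →₀ ℤ, dg h1 = -(F'.natDegree : ℤ) →
    Q (fun _ => pc F - pc G) (pc F' + D h1) = 0 := by
  have hk := constTors_of_finSub hfin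
  have hone : ∀ h1 : k →₀ ℤ, dg h1 = 0 → Q (fun _ => pc F - pc G) (D h1) = 0 := by
    intro h1 hh1
    have := mainP hfin Q hQ 1 monic_one (Or.inl rfl) (by intro a; simp) F G hF hG hFG h1
      (by rw [hh1]; simp)
    rwa [pc_one, zero_add] at this
  induction F' using WfDvdMonoid.induction_on_irreducible with
  | zero => intro h; exact absurd rfl h
  | unit u hu =>
    intro _ h1 hh1
    obtain ⟨c, hc, hcu⟩ := Polynomial.isUnit_iff.1 hu
    rw [← hcu]
    rw [← hcu, natDegree_C] at hh1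
    have ht := tors_pcC hk c hc.ne_zero
    rw [Q_eq_of_tors Q _ (pc F - pc G) (pc (C c) + D h1) (D h1) (by rw [sub_self]; exact Tors.zero)
      (by rw [add_sub_cancel_right]; exact ht)]
    exact hone h1 (by simpa using hh1)
  | mul a i ha hi ih =>
    intro _ h1 hh1
    set hi1 : k →₀ ℤ := Finsupp.single 0 (-(i.natDegree : ℤ)) with hhi1
    have hdi : dg hi1 = -(i.natDegree : ℤ) := dg_single _ _
    have hrest := ih ha (h1 + (-1 : ℤ) • hi1) (by
      rw [dg_add, dg_zsmul, hh1, hdi, natDegree_mul hi.ne_zero ha]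
      push_cast
      ring)
    have hlc : i.leadingCoeff ≠ 0 := leadingCoeff_ne_zero.2 hi.ne_zero
    set P := C (i.leadingCoeff)⁻¹ * i with hPd
    have hPm : P.Monic := by
      unfold Polynomial.Monic
      rw [hPd, leadingCoeff_mul, leadingCoeff_C, inv_mul_cancel₀ hlc]
    have hiP : i = C i.leadingCoeff * P := by
      rw [hPd, ← mul_assoc, ← C_mul, mul_inv_cancel₀ hlc, C_1, one_mul]
    have hPdeg : P.natDegree = i.natDegree := by
      conv_rhs => rw [hiP]
      rw [natDegree_C_mul hlc]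
    have hPi : Irreducible P := by
      have hu : IsUnit (C (i.leadingCoeff)⁻¹ : k[X]) := by
        rw [Polynomial.isUnit_C]
        exact (inv_ne_zero hlc).isUnit
      rw [hPd]
      exact (irreducible_isUnit_mul hu).2 hi
    have hPz : Q (fun _ => pc F - pc G) (pc P + D hi1) = 0 := by
      by_cases hr : ∃ a, P.eval a = 0
      · obtain ⟨a0, ha0⟩ := hr
        have hd1 := degree_eq_one_of_irreducible_of_root hPi ha0
        have hdvd : X - C a0 ∣ P := dvd_iff_isRoot.2 ha0
        have hPX : P = X - C a0 := by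
          apply (eq_of_monic_of_associated (monic_X_sub_C a0) hPm _).symm
          exact (irreducible_X_sub_C a0).associated_of_dvd hPi hdvd
        rw [hPX, pc_lin, ← D_single, ← D_add]
        apply hone
        rw [dg_add, dg_single, hdi, ← hPdeg, hPX, natDegree_X_sub_C]
        norm_num
      · push Not at hr
        exact mainP hfin Q hQ P hPm (Or.inr hPi) hr F G hF hG hFG hi1 (by rw [hdi, hPdeg])
    have ht := tors_pcC hk _ hlc
    have e1 : pc (i * a) + D h1 = pc (C i.leadingCoeff) + ((pc P + D hi1) +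
        (pc a + D (h1 + (-1 : ℤ) • hi1))) := by
      rw [pc_mul hi.ne_zero ha]
      conv_lhs => rw [hiP]
      rw [pc_mul (C_ne_zero.2 (by simpa using hlc)) hPm.ne_zero, D_add, D_zsmul]
      have e2 : (C i.leadingCoeff * P).leadingCoeff = i.leadingCoeff := by rw [← hiP]
      simp only [neg_smul, one_smul]
      abel_nf
    rw [e1]
    rw [Q_eq_of_tors Q _ (pc F - pc G) _ ((pc P + D hi1) + (pc a + D (h1 + (-1 : ℤ) • hi1)))
      (by rw [sub_self]; exact Tors.zero) (by rw [add_sub_cancel_right]; exact ht)]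
    rw [map_add, hPz, hrest, add_zero]

include hfin hQ in
theorem mainV0 (F G F' G' : k[X]) (hF : F ≠ 0) (hG : G ≠ 0) (hF' : F' ≠ 0) (hG' : G' ≠ 0)
    (hFG : F.natDegree = G.natDegree) (hFG' : F'.natDegree = G'.natDegree) :
    Q (fun _ => pc F - pc G) (pc F' - pc G') = 0 := by
  have h1 := mainV hfin Q hQ F G hF hG hFG F' hF' (Finsupp.single 0 (-(F'.natDegree : ℤ)))
    (dg_single _ _)
  have h2 := mainV hfin Q hQ F G hF hG hFG G' hG' (Finsupp.single 0 (-(F'.natDegree : ℤ)))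
    (by rw [dg_single, hFG'])
  have e : pc F' - pc G' = (pc F' + D (Finsupp.single 0 (-(F'.natDegree : ℤ)))) -
      (pc G' + D (Finsupp.single 0 (-(F'.natDegree : ℤ)))) := by abel
  rw [e, map_sub, h1, h2, sub_zero]

end main

end Helper392PC
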