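import Pool.Agent.Helper392_PC.Rel

/-!
# The vanishing for `k(x)`, `k` an infinite union of finite fields
-/

set_option autoImplicit false

namespace Helper392PC

open Polynomial H39Gon H39Gon.TaskB

section fin

/-- finite subfields -/
def FinSub (k : Type) [Field k] : Prop :=
  ∀ S : Finset k, ∃ (K : Type) (_ : Field K) (_ : Fintype K) (ι : K →+* k),
      (∀ a ∈ S, ∃ b, ι b = a) ∧ S.card ≤ Fintype.card K

theorem finSub (k : Type) [Field k] (p : ℕ) [Fact p.Prime]
    [Algebra (ZMod p) k] [Algebra.IsAlgebraic (ZMod p) k] : FinSub k := by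
  intro S
  have hfd : FiniteDimensional (ZMod p) (IntermediateField.adjoin (ZMod p) (S : Set k)) :=
    IntermediateField.finiteDimensional_adjoin
      (fun x _ => (Algebra.IsAlgebraic.isAlgebraic x).isIntegral)
  have hF : Finite (IntermediateField.adjoin (ZMod p) (S : Set k)) :=
    Module.finite_of_finite (ZMod p)
  let _ : Fintype (IntermediateField.adjoin (ZMod p) (S : Set k)) := Fintype.ofFinite _
  refine ⟨IntermediateField.adjoin (ZMod p) (S : Set k), inferInstance, inferInstance,
    algebraMap _ k, ?_, ?_⟩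
  · intro a ha
    exact ⟨⟨a, IntermediateField.subset_adjoin _ _ ha⟩, rfl⟩
  · rw [← Fintype.card_coe S]
    exact Fintype.card_le_of_injective
      (fun a : S => (⟨a.1, IntermediateField.subset_adjoin _ _ a.2⟩ :
        IntermediateField.adjoin (ZMod p) (S : Set k)))
      (by
        intro a b hab
        apply Subtype.ext
        exact congrArg (fun x : IntermediateField.adjoin (ZMod p) (S : Set k) => (x : k)) hab)

theorem constTors_of_finSub {k : Type} [Field k] (hfin : FinSub k) : ConstTors k := by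
  intro c hc
  obtain ⟨K, _, _, ι, hι, -⟩ := hfin {c}
  obtain ⟨b, hb⟩ := hι c (by simp)
  have hb0 : b ≠ 0 := by
    rintro rfl
    exact hc (by rw [← hb, map_zero])
  have h1 : 0 < Fintype.card K - 1 := by
    have := Fintype.one_lt_card (α := K)
    omega
  exact ⟨Fintype.card K - 1, h1, by
    rw [← hb, ← map_pow, FiniteField.pow_card_sub_one_eq_one b hb0, map_one]⟩

end fin

variable {k : Type} [Field k]

theorem lift_poly {K : Type} [Field K] (ι : K →+* k) (F : k[X])
    (h : ∀ a ∈ F.coeffs, ∃ b, ι b = a) : ∃ G : K[X], G.map ι = F := by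
  rw [← mem_lifts, lifts_iff_coeff_lifts]
  intro n
  by_cases hn : F.coeff n = 0
  · exact ⟨0, by rw [map_zero, hn]⟩
  · exact h _ (coeff_mem_coeffs hn)

theorem vanish [Infinite k] (hfin : FinSub k) {m : ℕ}
    (Q : MultilinearMap ℤ (fun _ : Fin (m + 1) => UV (RatFunc k)) (UV (RatFunc k) →ₗ[ℤ] ℚ))
    (hQ : ∀ f : RatFunc k, f ≠ 0 → f ≠ 1 → Q (fun _ => cl f) (cl (1 - f)) = 0)
    (A0 C0 : k[X]) (hA : A0.Monic) (hC : C0.Monic) (hAC : IsCoprime A0 C0)
    (hAr : ∀ a, A0.eval a ≠ 0) (hCr : ∀ a, C0.eval a ≠ 0) (g h : k →₀ ℤ) (be : ℤ)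
    (hg0 : (A0.natDegree : ℤ) - C0.natDegree + dg g = 0)
    (hh0 : be * (0 - (C0.natDegree : ℤ)) + dg h = 0) :
    Q (fun _ => pc A0 - pc C0 + D g) (be • (pc 1 - pc C0) + D h) = 0 := by
  classical
  set e := max A0.natDegree C0.natDegree with he
  obtain ⟨q0, hq0⟩ := ftg m e (2 * (3 * e + 2 * (m + 2))) le_rfl
  set S0 : Finset k := (g.support ∪ h.support) ∪ (A0.coeffs ∪ C0.coeffs) with hS0
  obtain ⟨S, hS, hScard⟩ := Infinite.exists_superset_card_eq S0
    (max S0.card q0) (le_max_left _ _)
  obtain ⟨K, _, _, ι, hι, hcard⟩ := hfin S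
  obtain ⟨A, hAm⟩ := lift_poly ι A0 (fun a ha => hι a (hS (Finset.mem_union_right _
    (Finset.mem_union_left _ ha))))
  obtain ⟨Cc, hCm⟩ := lift_poly ι C0 (fun a ha => hι a (hS (Finset.mem_union_right _
    (Finset.mem_union_right _ ha))))
  have hAd : A.natDegree = A0.natDegree := by rw [← hAm, natDegree_map]
  have hCd : Cc.natDegree = C0.natDegree := by rw [← hCm, natDegree_map]
  have hAmon : A.Monic := by rw [← hAm] at hA; exact (monic_map_iff).1 hA
  have hCmon : Cc.Monic := by rw [← hCm] at hC; exact (monic_map_iff).1 hC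
  have hcop : IsCoprime A Cc := by
    rw [← hAm, ← hCm] at hAC
    exact (isCoprime_map ι).1 hAC
  have hAr' : ∀ a : K, A.eval a ≠ 0 := by
    intro a ha
    apply hAr (ι a)
    rw [← hAm, eval_map_apply, ha, map_zero]
  have hCr' : ∀ a : K, Cc.eval a ≠ 0 := by
    intro a ha
    apply hCr (ι a)
    rw [← hCm, eval_map_apply, ha, map_zero]
  set M0 : Fin 3 → K[X] := ![A, 1, Cc] with hM0
  set d := 2 * (3 * e + 2 * (m + 2)) with hd
  have hle : A.natDegree ≤ e := by rw [hAd]; exact le_max_left _ _
  have hle2 : Cc.natDegree ≤ e := by rw [hCd]; exact le_max_right _ _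
  have hmon : ∀ Y, (M0 Y).Monic := by
    intro Y
    fin_cases Y
    · exact hAmon
    · exact monic_one
    · exact hCmon
  have hdeg : ∀ Y, (M0 Y).natDegree ≤ e := by
    intro Y
    fin_cases Y
    · exact hle
    · simp [hM0]
    · exact hle2
  have hdn : ∀ Y, (M0 Y).natDegree + (fun Y => d - (M0 Y).natDegree) Y = d := by
    intro Y
    have := hdeg Y
    simp only
    omega
  have hco : ∀ Y Y', Y ≠ Y' → IsCoprime (M0 Y) (M0 Y') := by
    intro Y Y' hY
    fin_cases Y <;> fin_cases Y'
    · exact absurd rfl hY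
    · exact isCoprime_one_right
    · exact hcop
    · exact isCoprime_one_left
    · exact absurd rfl hY
    · exact isCoprime_one_left
    · exact hcop.symm
    · exact isCoprime_one_right
    · exact absurd rfl hY
  have hro : ∀ Y (a : K), (M0 Y).eval a ≠ 0 := by
    intro Y a
    fin_cases Y
    · exact hAr' a
    · simp [hM0]
    · exact hCr' a
  have hqK : q0 ≤ Fintype.card K :=
    le_trans (by rw [hScard]; exact le_max_right _ _) hcard
  have hcore := coreG (constTors_of_finSub hfin) K ι M0 hmon _ hdn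
    (hq0 K hqK M0 _ hmon hdn hdeg hco hro) Q hQ
  have hfinal := deg_zeroG K ι M0 Q hcore g h
    (fun a ha => hι a (hS (Finset.mem_union_left _ (Finset.mem_union_left _ ha))))
    (fun a ha => hι a (hS (Finset.mem_union_left _ (Finset.mem_union_right _ ha)))) be
    (by
      have e0 : (M0 0).natDegree = A0.natDegree := hAd
      have e2 : (M0 2).natDegree = C0.natDegree := hCd
      rw [e0, e2]; exact hg0)
    (by
      have e1 : (M0 1).natDegree = 0 := natDegree_one
      have e2 : (M0 2).natDegree = C0.natDegree := hCd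
      rw [e1, e2]; exact_mod_cast hh0)
  have f0 : (M0 0).map ι = A0 := hAm
  have f1 : (M0 1).map ι = 1 := Polynomial.map_one ι
  have f2 : (M0 2).map ι = C0 := hCm
  rw [f0, f1, f2] at hfinal
  exact hfinal

end Helper392PC
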